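import Pool.Agent.L5helper15.KU.St

/-! Points over multiquadratic extensions close to finitely many local points; local openness -/

set_option autoImplicit false
set_option linter.unusedVariables false
set_option linter.unusedSectionVars false

open Filter Topology

namespace Pool.Agent.L5helper15.KU

open MvPolynomial Pool.Agent.Y720.MZ Pool.Agent.L5helper15.KD
  Pool.Agent.Results.MP_ed3816_nt.OpenAwayFromTorsion

section base

variable {F M : Type} [Field F] [CharZero F] [Field M] [CharZero M] {m : ℕ}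
  {f : MvPolynomial (Fin m) F}

lemma Tq_map' (φ : F →+* M) (j : Fin m) (z : Fin m → F) :
    Tq (MvPolynomial.map φ f) (Pi.single j 1) (fun a => φ (z a)) = φ (Tq f (Pi.single j 1) z) := by
  rw [← TqP_eval, ← TqP_eval]
  have h3 : TqP (MvPolynomial.map φ f) (Pi.single j 1) =
      MvPolynomial.map φ (TqP f (Pi.single j 1)) := by
    rw [TqP_map]
    congr 1
    rw [single_s]
  rw [h3, eval_map']

lemma th_map (φ : F →+* M) (j : Fin m) (z : Fin m → F) (w : F) :
    th (MvPolynomial.map φ f) (Pi.single j 1) (fun a => φ (z a)) (φ w) =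
      im φ (th f (Pi.single j 1) z w) := by
  refine Prod.ext rfl ?_
  funext i
  simp only [th, im, cq]
  rw [← Polynomial.coeff_map, rst_map, single_s]

omit [CharZero F] [CharZero M] in
lemma on_map (φ : F →+* M) {P : (Fin m → F) × F} (h : OnCover f P) :
    OnCover (MvPolynomial.map φ f) (image φ P) := by
  change (φ P.2) ^ 2 = eval (fun k => φ (P.1 k)) (MvPolynomial.map φ f)
  rw [eval_map', ← map_pow, show P.2 ^ 2 = eval P.1 f from h]

/-- the points of infinite order and extension of the field -/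
theorem Free_map (φ : F →+* M) {P : (Fin m → F) × F} (h : Free f P) :
    Free (MvPolynomial.map φ f) (image φ P) := by
  let : DecidableEq F := Classical.decEq F
  let : DecidableEq M := Classical.decEq M
  obtain ⟨h1, h2, h3⟩ := h
  have h4 : OnCover (MvPolynomial.map φ f) (image φ P) := on_map φ h1
  refine ⟨h4, (map_ne_zero φ).2 h2, fun j => ?_⟩
  rw [moves_iff h4]
  have h5 := (moves_iff h1).1 (h3 j)
  have h6 := IOt_map φ (θ := th f (Pi.single j 1) P.1 P.2) h2 h5
  rw [← th_map] at h6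
  exact h6

end base

section multi

variable {m : ℕ} {ι : Type} [Finite ι] {p : ι → ℕ} [hp : ∀ i, Fact (p i).Prime]

/-- **Points over multiquadratic extensions close to finitely many local points.** -/
theorem multi (j₀ : Fin m) (hinj : Function.Injective p) (r : ℕ) : ∀ (K : Type) [Field K] [CharZero K]
    (hK : Pool.Agent.Y742.GG.FG K) (f : MvPolynomial (Fin m) K) (hd : ∀ j, f.degreeOf j ≤ 4)
    (hirr : AbsIrr f) (hg : ∀ j, ∃ z, Tq f (Pi.single j 1) z ≠ 0) (σ : ∀ i, K →+* ℚ_[p i])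
    (τ : K →+* ℝ) (x : Fin r → (Fin m → ℝ) × ℝ) (y : Fin r → ∀ i, (Fin m → ℚ_[p i]) × ℚ_[p i])
    (hx : ∀ k, onX (MvPolynomial.map τ f) (x k).1 (x k).2) (hx0 : ∀ k, (x k).2 ≠ 0)
    (hy : ∀ k i, onX (MvPolynomial.map (σ i) f) (y k i).1 (y k i).2)
    (hy0 : ∀ k i, (y k i).2 ≠ 0) (ε : Fin r → ℝ) (hε : ∀ k, 0 < ε k),
    ∃ (L : Type) (_ : Field L) (_ : CharZero L) (_ : Algebra K L), FiniteDimensional K L ∧
      (∃ s : ℕ, Module.finrank K L = 2 ^ s) ∧ ∃ (σ' : ∀ i, L →+* ℚ_[p i]) (τ' : L →+* ℝ),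
      (∀ i, (σ' i).comp (algebraMap K L) = σ i) ∧ τ'.comp (algebraMap K L) = τ ∧
      ∀ k, ∃ P : (Fin m → L) × L, OnCover (MvPolynomial.map (algebraMap K L) f) P ∧
        ((∀ l, |τ' (P.1 l) - (x k).1 l| < ε k) ∧ |τ' P.2 - (x k).2| < ε k) ∧
        ∀ i, (∀ l, ‖σ' i (P.1 l) - (y k i).1 l‖ < ε k) ∧ ‖σ' i P.2 - (y k i).2‖ < ε k := by
  induction r with
  | zero =>
    intro K _ _ hK f hd hirr hg σ τ x y hx hx0 hy hy0 ε hε
    exact ⟨K, inferInstance, inferInstance, inferInstance, inferInstance, ⟨0, by simp⟩, σ, τ,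
      fun i => by ext; rfl, by ext; rfl, fun k => k.elim0⟩
  | succ r ih =>
    intro K _ _ hK f hd hirr hg σ τ x y hx hx0 hy hy0 ε hε
    obtain ⟨L₁, _, _, _, hfd, hrk, σ₁, τ₁, c1, c2, P, hP, hP1, hP2⟩ := step hK hd hirr hg j₀ hinj σ τ
      (hx 0) (hx0 0) (hy 0) (hy0 0) (hε 0)
    have e1 : MvPolynomial.map τ₁ (MvPolynomial.map (algebraMap K L₁) f) = MvPolynomial.map τ f := by
      rw [MvPolynomial.map_map, c2]
    have e2 : ∀ i, MvPolynomial.map (σ₁ i) (MvPolynomial.map (algebraMap K L₁) f) =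
        MvPolynomial.map (σ i) f := by
      intro i
      rw [MvPolynomial.map_map, c1]
    obtain ⟨L₂, _, _, _, hfd2, ⟨s, hrk2⟩, σ₂, τ₂, c3, c4, hPs⟩ := ih L₁ (hK.of_finite (L := L₁))
      (MvPolynomial.map (algebraMap K L₁) f) (fun j => degreeOf_map_le _ (hd j)) (hirr.ext L₁)
      (fun j => by
        obtain ⟨z, hz⟩ := hg j
        exact ⟨_, by rw [Tq_map']; exact (map_ne_zero _).2 hz⟩) σ₁ τ₁ (fun k => x k.succ)
      (fun k => y k.succ) (fun k => by rw [e1]; exact hx k.succ) (fun k => hx0 k.succ)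
      (fun k i => by rw [e2]; exact hy k.succ i) (fun k => hy0 k.succ) (fun k => ε k.succ)
      (fun k => hε k.succ)
    let alg : Algebra K L₂ := ((algebraMap L₁ L₂).comp (algebraMap K L₁)).toAlgebra
    have htow : IsScalarTower K L₁ L₂ := IsScalarTower.of_algebraMap_eq (fun z => rfl)
    have hcomp : (algebraMap L₁ L₂).comp (algebraMap K L₁) = algebraMap K L₂ := rfl
    have e3 : MvPolynomial.map (algebraMap L₁ L₂) (MvPolynomial.map (algebraMap K L₁) f) =
        MvPolynomial.map (algebraMap K L₂) f := by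
      rw [MvPolynomial.map_map, hcomp]
    refine ⟨L₂, inferInstance, inferInstance, alg, FiniteDimensional.trans K L₁ L₂,
      ⟨s + 1, ?_⟩, σ₂, τ₂, fun i => ?_, ?_, fun k => ?_⟩
    · rw [← Module.finrank_mul_finrank K L₁ L₂, hrk, hrk2, pow_succ]; ring
    · rw [← hcomp, ← RingHom.comp_assoc, c3, c1]
    · rw [← hcomp, ← RingHom.comp_assoc, c4, c2]
    · refine Fin.cases ?_ (fun k => ?_) k
      · refine ⟨image (algebraMap L₁ L₂) P, ?_, ?_, fun i => ?_⟩
        · rw [← e3]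
          exact on_map _ hP.1
        · have h1 : ∀ z, τ₂ (algebraMap L₁ L₂ z) = τ₁ z := fun z => RingHom.congr_fun c4 z
          refine ⟨fun l => ?_, ?_⟩
          · change |τ₂ (algebraMap L₁ L₂ (P.1 l)) - (x 0).1 l| < ε 0
            rw [h1]; exact hP1.1 l
          · change |τ₂ (algebraMap L₁ L₂ P.2) - (x 0).2| < ε 0
            rw [h1]; exact hP1.2
        · have h1 : ∀ z, σ₂ i (algebraMap L₁ L₂ z) = σ₁ i z := fun z => RingHom.congr_fun (c3 i) z
          refine ⟨fun l => ?_, ?_⟩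
          · change ‖σ₂ i (algebraMap L₁ L₂ (P.1 l)) - (y 0 i).1 l‖ < ε 0
            rw [h1]; exact (hP2 i).1 l
          · change ‖σ₂ i (algebraMap L₁ L₂ P.2) - (y 0 i).2‖ < ε 0
            rw [h1]; exact (hP2 i).2
      · obtain ⟨Q, g1, g2, g3⟩ := hPs k
        rw [e3] at g1
        exact ⟨Q, g1, g2, g3⟩

end multi

section loc

variable {m : ℕ} {ι : Type} [Finite ι] {p : ι → ℕ} [hp : ∀ i, Fact (p i).Prime]

/-- **The closure is a neighbourhood of the local points of infinite order, uniformly.** -/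
theorem open_loc [Nonempty ι] (hinj : Function.Injective p) {g' : MvPolynomial (Fin m) ℝ}
    {g : ∀ i, MvPolynomial (Fin m) ℚ_[p i]} {x : (Fin m → ℝ) × ℝ}
    {y : ∀ i, (Fin m → ℚ_[p i]) × ℚ_[p i]} (hx : Free g' x) (hy : ∀ i, Free (g i) (y i)) :
    ∃ ε : ℝ, 0 < ε ∧ ∀ (F : Type) [Field F] [CharZero F] (σ : ∀ i, F →+* ℚ_[p i]) (τ : F →+* ℝ)
      (f : MvPolynomial (Fin m) F), (∀ k, f.degreeOf k ≤ 4) → (∀ i, MvPolynomial.map (σ i) f = g i) →
      MvPolynomial.map τ f = g' → ∀ P : (Fin m → F) × F, OnCover f P →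
      ((∀ l, |τ (P.1 l) - x.1 l| < ε) ∧ |τ P.2 - x.2| < ε) →
      (∀ i, (∀ l, ‖σ i (P.1 l) - (y i).1 l‖ < ε) ∧ ‖σ i P.2 - (y i).2‖ < ε) →
      ∀ (x' : (Fin m → ℝ) × ℝ) (y' : ∀ i, (Fin m → ℚ_[p i]) × ℚ_[p i]), OnCover g' x' →
      (∀ i, OnCover (g i) (y' i)) → ((∀ l, |x'.1 l - x.1 l| < ε) ∧ |x'.2 - x.2| < ε) →
      (∀ i, (∀ l, ‖(y' i).1 l - (y i).1 l‖ < ε) ∧ ‖(y' i).2 - (y i).2‖ < ε) →
      (x', y') ∈ ClosureReal f σ τ := by
  let G : ∀ v, MvPolynomial (Fin m) (Lv p v) := fun v => match v with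
    | none => g'
    | some i => g i
  let X₀ : ∀ v, Fin m → Lv p v := fun v => match v with
    | none => x.1
    | some i => (y i).1
  let Y₀ : ∀ v, Lv p v := fun v => match v with
    | none => x.2
    | some i => (y i).2
  have hint : IntU G X₀ Y₀ := by
    refine int_of_mvU ?_ ?_ fun a => mv_quarticU (hw_allU hinj ?_ ?_)
    · rintro (_ | i)
      · exact hx.1
      · exact (hy i).1
    · rintro (_ | i)
      · exact hx.2.1
      · exact (hy i).2.1
    · rintro (_ | i)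
      · exact hx.2.1
      · exact (hy i).2.1
    · rintro (_ | i)
      · exact (moves_iff hx.1).1 (hx.2.2 a)
      · exact (moves_iff (hy i).1).1 ((hy i).2.2 a)
  obtain ⟨ε, hε, hb⟩ := hint
  refine ⟨ε, hε, fun F _ _ σ τ f hd hσ hτ P hP h1 h2 x' y' hx' hy' h3 h4 => ?_⟩
  rw [mem_cl]
  intro η hη
  let X' : ∀ v, Fin m → Lv p v := fun v => match v with
    | none => x'.1
    | some i => (y' i).1
  let Y' : ∀ v, Lv p v := fun v => match v with
    | none => x'.2
    | some i => (y' i).2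
  obtain ⟨a, b, g1, g2⟩ := hb F (sv σ τ) f hd (by
    rintro (_ | i)
    · exact hτ
    · exact hσ i) P.1 P.2 hP (by
    rintro (_ | i)
    · exact h1
    · exact h2 i) X' Y' (by
    rintro (_ | i)
    · exact hx'
    · exact hy' i) (by
    rintro (_ | i)
    · exact h3
    · exact h4 i) η hη
  exact ⟨a, b, g1, g2 none, fun i => g2 (some i)⟩

end loc

section real

variable {m : ℕ} {g : MvPolynomial (Fin m) ℝ}

/-- the component of a smooth point contains points outside the branch locus -/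
theorem comp_off {x : (Fin m → ℝ) × ℝ} (hs : x ∈ Smooth g) :
    ∃ x' ∈ connectedComponentIn (Smooth g) x, x'.2 ≠ 0 := by
  by_cases hw : x.2 = 0
  swap
  · exact ⟨x, mem_connectedComponentIn hs, hw⟩
  obtain ⟨hon, h2⟩ := hs
  obtain ⟨j, hj⟩ := h2.resolve_left (not_not.2 hw)
  have hon' : x.2 ^ 2 = eval x.1 g := hon
  obtain ⟨Q, hQ⟩ : ∃ Q, Q = rst g x.1 (Pi.single j 1) := ⟨_, rfl⟩
  have hQe : ∀ t, Q.eval t = eval (shf x.1 j t) g := fun t => by rw [hQ, ← shf_eval]
  have hQ0 : Q.coeff 0 = 0 := by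
    rw [Polynomial.coeff_zero_eq_eval_zero, hQe, shf_zero, ← hon', hw]
    norm_num
  have hQ1 : Q.coeff 1 ≠ 0 := by
    rw [hQ]
    have := cq_zero (g := g) (z := x.1) (j := j)
    unfold cq at this
    simp only [Fin.val_zero, zero_add] at this
    rw [this]
    exact hj
  obtain ⟨R, hR⟩ : ∃ R, R = Q.divX := ⟨_, rfl⟩
  have hQR : ∀ t, Q.eval t = R.eval t * t := by
    intro t
    have := Polynomial.divX_mul_X_add Q
    rw [hQ0, map_zero, add_zero, ← hR] at this
    rw [← this, Polynomial.eval_mul, Polynomial.eval_X]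
  obtain ⟨r, hr⟩ : ∃ r, r = R.eval 0 := ⟨_, rfl⟩
  have hr0 : r ≠ 0 := by
    rw [hr, ← Polynomial.coeff_zero_eq_eval_zero, hR, Polynomial.coeff_divX]
    exact hQ1
  have c1 : Continuous fun s : ℝ => r * R.eval (r * s) :=
    continuous_const.mul (R.continuous.comp (continuous_const.mul continuous_id))
  have e1 : ∀ᶠ s in 𝓝 (0 : ℝ), 0 < r * R.eval (r * s) := by
    refine c1.continuousAt.eventually (lt_mem_nhds ?_)
    change 0 < r * R.eval (r * 0)
    rw [mul_zero, ← hr]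
    exact mul_self_pos.2 hr0
  obtain ⟨ρ, hρ, hb⟩ := Metric.eventually_nhds_iff_ball.1 e1
  have hpos : ∀ s ∈ Set.Icc 0 (ρ / 2), 0 < s → 0 < Q.eval (r * s) := by
    intro s hs hs0
    have h1 := hb s (by
      rw [Metric.mem_ball, Real.dist_eq, sub_zero, abs_of_nonneg hs.1]
      linarith [hs.2])
    rw [hQR]
    nlinarith [mul_pos h1 hs0]
  obtain ⟨c, hc⟩ : ∃ c : ℝ → (Fin m → ℝ) × ℝ,
    c = fun s => (shf x.1 j (r * s), √(Q.eval (r * s))) := ⟨_, rfl⟩
  have hcont : Continuous c := by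
    rw [hc]
    refine Continuous.prodMk ?_ ?_
    · refine continuous_pi fun k => ?_
      simp only [shf]
      fun_prop
    · exact (Q.continuous.comp (continuous_const.mul continuous_id)).sqrt
  have hc0 : c 0 = x := by
    rw [hc]
    simp only [mul_zero, shf_zero]
    refine Prod.ext rfl ?_
    simp only
    rw [← Polynomial.coeff_zero_eq_eval_zero, hQ0, Real.sqrt_zero, hw]
  have hmem : ∀ s ∈ Set.Icc 0 (ρ / 2), c s ∈ Smooth g := by
    intro s hs
    rcases hs.1.eq_or_lt with h0 | h0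
    · rw [← h0, hc0]
      exact ⟨hon, h2⟩
    · have h1 := hpos s hs h0
      rw [hc]
      refine ⟨?_, Or.inl (Real.sqrt_pos.2 h1).ne'⟩
      change √(Q.eval (r * s)) ^ 2 = eval (shf x.1 j (r * s)) g
      rw [Real.sq_sqrt h1.le, hQe]
  have hρ2 : (0 : ℝ) ≤ ρ / 2 := by linarith
  have hsub : c '' Set.Icc 0 (ρ / 2) ⊆ connectedComponentIn (Smooth g) x := by
    refine IsPreconnected.subset_connectedComponentIn (isPreconnected_Icc.image c hcont.continuousOn)
      ⟨0, ⟨le_rfl, hρ2⟩, hc0⟩ ?_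
    rintro _ ⟨s, hs, rfl⟩
    exact hmem s hs
  refine ⟨c (ρ / 2), hsub ⟨ρ / 2, ⟨hρ2, le_rfl⟩, rfl⟩, ?_⟩
  rw [hc]
  exact (Real.sqrt_pos.2 (hpos _ ⟨hρ2, le_rfl⟩ (by linarith))).ne'

/-- **Real points of infinite order in the components.** -/
theorem real_pt {K : Type} [Field K] [CharZero K] (hK : Pool.Agent.Y742.GG.FG K)
    {f : MvPolynomial (Fin m) K} (hd : ∀ j, f.degreeOf j ≤ 4)
    (hirr : AbsIrr f) (hg : ∀ j, ∃ z, Tq f (Pi.single j 1) z ≠ 0) (j₀ : Fin m) (τ : K →+* ℝ)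
    {x : (Fin m → ℝ) × ℝ} (hs : x ∈ Smooth (MvPolynomial.map τ f)) :
    ∃ x₁ ∈ connectedComponentIn (Smooth (MvPolynomial.map τ f)) x,
      Free (MvPolynomial.map τ f) x₁ := by
  obtain ⟨x', hx', hw⟩ := comp_off hs
  have hx's : x' ∈ Smooth (MvPolynomial.map τ f) := connectedComponentIn_subset _ _ hx'
  obtain ⟨ρ, hρ, hb⟩ := comp_near (g := MvPolynomial.map τ f) (x := x') hx's.1 hw
  let p : Empty → ℕ := fun e => e.elim
  have : ∀ i, Fact (p i).Prime := fun i => i.elim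
  obtain ⟨L, _, _, _, -, -, σ', τ', -, h2, P, hP, hP1, -⟩ := step (p := p) hK hd hirr hg j₀
    (fun i => i.elim) (fun i => i.elim) τ (x := x') (y := fun i => i.elim) hx's.1 hw
    (fun i => i.elim) (fun i => i.elim) hρ
  have h3 : MvPolynomial.map τ' (MvPolynomial.map (algebraMap K L) f) = MvPolynomial.map τ f := by
    rw [MvPolynomial.map_map, h2]
  have h4 := Free_map τ' hP
  rw [h3] at h4
  refine ⟨image τ' P, ?_, h4⟩
  rw [connectedComponentIn_eq hx']
  exact hb _ hP1.1 hP1.2 h4.1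

end real

end Pool.Agent.L5helper15.KU
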