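import Pool.Agent.L5helper15.KU.Fi

/-! Potential weak approximation: assembly -/

set_option autoImplicit false
set_option linter.unusedVariables false
set_option linter.unusedSectionVars false

open Filter Topology

namespace Pool.Agent.L5helper15.KU

open MvPolynomial Pool.Agent.Y720.MZ Pool.Agent.L5helper15.KD
  Pool.Agent.Results.MP_ed3816_nt.OpenAwayFromTorsion

section main

variable {K : Type} [Field K] [CharZero K] {m : ℕ} {f : MvPolynomial (Fin m) K} {ι : Type}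
  [Finite ι] {p : ι → ℕ} [hp : ∀ i, Fact (p i).Prime]

/-- **Potential weak approximation.** -/
theorem main1 [Nonempty ι] (hK : Pool.Agent.Y742.GG.FG K) (hd : ∀ j, f.degreeOf j ≤ 4)
    (hirr : AbsIrr f) (hg : ∀ j, ∃ z, Tq f (Pi.single j 1) z ≠ 0) (j₀ : Fin m)
    (hinj : Function.Injective p) (σ : ∀ i, K →+* ℚ_[p i]) (τ : K →+* ℝ)
    (A : Finset ((Fin m → ℝ) × ℝ)) (hA : ∀ x ∈ A, x ∈ Smooth (MvPolynomial.map τ f))
    {Z : Set (∀ i, (Fin m → ℚ_[p i]) × ℚ_[p i])} (hZ : IsCompact Z)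
    (hZX : ∀ y ∈ Z, ∀ i, Free (MvPolynomial.map (σ i) f) (y i)) :
    ∃ (L : Type) (_ : Field L) (_ : CharZero L) (_ : Algebra K L),
      (∃ s : ℕ, Module.finrank K L = 2 ^ s) ∧ ∃ (σ' : ∀ i, L →+* ℚ_[p i]) (τ' : L →+* ℝ),
      (∀ i, (σ' i).comp (algebraMap K L) = σ i) ∧ τ'.comp (algebraMap K L) = τ ∧
      ∀ x ∈ A, ∀ x' ∈ connectedComponentIn (Smooth (MvPolynomial.map τ f)) x, ∀ y ∈ Z,
        (x', y) ∈ ClosureReal (MvPolynomial.map (algebraMap K L) f) σ' τ' := by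
  classical
  have : Fintype ι := Fintype.ofFinite ι
  have key : ∀ x : {x // x ∈ A}, ∃ (x₁ : (Fin m → ℝ) × ℝ)
      (t : Finset (∀ i, (Fin m → ℚ_[p i]) × ℚ_[p i])) (ε : (∀ i, (Fin m → ℚ_[p i]) × ℚ_[p i]) → ℝ),
      x₁ ∈ connectedComponentIn (Smooth (MvPolynomial.map τ f)) x.1 ∧
      Free (MvPolynomial.map τ f) x₁ ∧ (∀ y ∈ t, y ∈ Z) ∧ (∀ y ∈ t, 0 < ε y) ∧
      (Z ⊆ ⋃ y ∈ t, Metric.ball y (ε y)) ∧ ∀ y ∈ t,
        ∀ (F : Type) [Field F] [CharZero F] (σ' : ∀ i, F →+* ℚ_[p i]) (τ' : F →+* ℝ)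
        (h : MvPolynomial (Fin m) F), (∀ k, h.degreeOf k ≤ 4) →
        (∀ i, MvPolynomial.map (σ' i) h = MvPolynomial.map (σ i) f) →
        MvPolynomial.map τ' h = MvPolynomial.map τ f → ∀ P : (Fin m → F) × F, OnCover h P →
        ((∀ l, |τ' (P.1 l) - x₁.1 l| < ε y) ∧ |τ' P.2 - x₁.2| < ε y) →
        (∀ i, (∀ l, ‖σ' i (P.1 l) - (y i).1 l‖ < ε y) ∧ ‖σ' i P.2 - (y i).2‖ < ε y) →
        ∀ (x' : (Fin m → ℝ) × ℝ) (y' : ∀ i, (Fin m → ℚ_[p i]) × ℚ_[p i]),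
        OnCover (MvPolynomial.map τ f) x' →
        (∀ i, OnCover (MvPolynomial.map (σ i) f) (y' i)) →
        ((∀ l, |x'.1 l - x₁.1 l| < ε y) ∧ |x'.2 - x₁.2| < ε y) →
        (∀ i, (∀ l, ‖(y' i).1 l - (y i).1 l‖ < ε y) ∧ ‖(y' i).2 - (y i).2‖ < ε y) →
        (x', y') ∈ ClosureReal h σ' τ' := by
    rintro ⟨x, hx⟩
    obtain ⟨x₁, hx₁, hfr⟩ := real_pt hK hd hirr hg j₀ τ (hA x hx)
    have h1 : ∀ y, ∃ ε : ℝ, 0 < ε ∧ (y ∈ Z →
        ∀ (F : Type) [Field F] [CharZero F] (σ' : ∀ i, F →+* ℚ_[p i]) (τ' : F →+* ℝ)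
        (h : MvPolynomial (Fin m) F), (∀ k, h.degreeOf k ≤ 4) →
        (∀ i, MvPolynomial.map (σ' i) h = MvPolynomial.map (σ i) f) →
        MvPolynomial.map τ' h = MvPolynomial.map τ f → ∀ P : (Fin m → F) × F, OnCover h P →
        ((∀ l, |τ' (P.1 l) - x₁.1 l| < ε) ∧ |τ' P.2 - x₁.2| < ε) →
        (∀ i, (∀ l, ‖σ' i (P.1 l) - (y i).1 l‖ < ε) ∧ ‖σ' i P.2 - (y i).2‖ < ε) →
        ∀ (x' : (Fin m → ℝ) × ℝ) (y' : ∀ i, (Fin m → ℚ_[p i]) × ℚ_[p i]),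
        OnCover (MvPolynomial.map τ f) x' →
        (∀ i, OnCover (MvPolynomial.map (σ i) f) (y' i)) →
        ((∀ l, |x'.1 l - x₁.1 l| < ε) ∧ |x'.2 - x₁.2| < ε) →
        (∀ i, (∀ l, ‖(y' i).1 l - (y i).1 l‖ < ε) ∧ ‖(y' i).2 - (y i).2‖ < ε) →
        (x', y') ∈ ClosureReal h σ' τ') := by
      intro y
      by_cases hy : y ∈ Z
      · obtain ⟨ε, hε, h⟩ := open_loc hinj hfr (hZX y hy)
        exact ⟨ε, hε, fun _ => h⟩
      · exact ⟨1, one_pos, fun h => absurd h hy⟩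
    choose ε hε hloc using h1
    obtain ⟨t, ht1, ht2⟩ := hZ.elim_nhds_subcover (fun y => Metric.ball y (ε y))
      (fun y _ => Metric.ball_mem_nhds y (hε y))
    exact ⟨x₁, t, ε, hx₁, hfr, ht1, fun y _ => hε y, ht2, fun y hy => hloc y (ht1 y hy)⟩
  choose x₁ t ε hx₁ hfr htZ hε hcov hloc using key
  let J := Σ x : {x // x ∈ A}, {y // y ∈ t x}
  let e := Finite.equivFin J
  obtain ⟨L, i1, i2, i3, -, hrk, σ', τ', hσ, hτ, hP⟩ := multi j₀ hinj (Nat.card J) K hK f hd hirr hg σ τ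
    (fun k => x₁ (e.symm k).1) (fun k => (e.symm k).2.1) (fun k => (hfr _).1) (fun k => (hfr _).2.1)
    (fun k i => (hZX _ (htZ _ _ (e.symm k).2.2) i).1)
    (fun k i => (hZX _ (htZ _ _ (e.symm k).2.2) i).2.1) (fun k => ε (e.symm k).1 (e.symm k).2.1)
    (fun k => hε _ _ (e.symm k).2.2)
  have hmτ : MvPolynomial.map τ' (MvPolynomial.map (algebraMap K L) f) = MvPolynomial.map τ f := by
    rw [MvPolynomial.map_map, hτ]
  have hmσ : ∀ i, MvPolynomial.map (σ' i) (MvPolynomial.map (algebraMap K L) f) =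
      MvPolynomial.map (σ i) f := by
    intro i
    rw [MvPolynomial.map_map, hσ]
  have hdL : ∀ k, (MvPolynomial.map (algebraMap K L) f).degreeOf k ≤ 4 :=
    fun k => degreeOf_map_le _ (hd k)
  refine ⟨L, i1, i2, i3, hrk, σ', τ', hσ, hτ, fun x hx x' hx' y hy => ?_⟩
  obtain ⟨y₀, hy₀, hyb⟩ := Set.mem_iUnion₂.1 (hcov ⟨x, hx⟩ hy)
  have hP' := hP (e ⟨⟨x, hx⟩, ⟨y₀, hy₀⟩⟩)
  rw [e.symm_apply_apply] at hP'
  obtain ⟨P, hP1, hP2, hP3⟩ := hP'
  have hε0 := hε ⟨x, hx⟩ y₀ hy₀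
  have hcl : (x₁ ⟨x, hx⟩, y) ∈ ClosureReal (MvPolynomial.map (algebraMap K L) f) σ' τ' := by
    refine hloc ⟨x, hx⟩ y₀ hy₀ L σ' τ' _ hdL hmσ hmτ P hP1 hP2 hP3 _ _ (hfr _).1
      (fun i => (hZX y hy i).1) ⟨fun l => ?_, ?_⟩ fun i => ?_
    · rw [sub_self, abs_zero]; exact hε0
    · rw [sub_self, abs_zero]; exact hε0
    · rw [Metric.mem_ball, dist_pi_lt_iff hε0] at hyb
      have h3 := hyb i
      rw [Prod.dist_eq, max_lt_iff, dist_pi_lt_iff hε0] at h3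
      simp only [dist_eq_norm] at h3
      exact h3
  have hs₁ : x₁ ⟨x, hx⟩ ∈ Smooth (MvPolynomial.map τ f) := connectedComponentIn_subset _ _ (hx₁ _)
  have hI : ∀ j, Inf (MvPolynomial.map (algebraMap K L) f) σ' y j := by
    intro j
    obtain ⟨i⟩ := ‹Nonempty ι›
    have h1 := hZX y hy i
    rw [← hmσ i] at h1
    exact inf_of h1.1 h1.2.1 (h1.2.2 j)
  refine Pool.Agent.L5helper15.KD.comp hdL hI hcl (by rw [hmτ]; exact hs₁) (z' := x') ?_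
  rw [hmτ, ← connectedComponentIn_eq (hx₁ ⟨x, hx⟩)]
  exact hx'

/-- **Potential weak approximation**, without places. -/
theorem main2 (hK : Pool.Agent.Y742.GG.FG K) (hd : ∀ j, f.degreeOf j ≤ 4)
    (hirr : AbsIrr f) (hg : ∀ j, ∃ z, Tq f (Pi.single j 1) z ≠ 0) (j₀ : Fin m)
    (hinj : Function.Injective p) (σ : ∀ i, K →+* ℚ_[p i]) (τ : K →+* ℝ)
    (A : Finset ((Fin m → ℝ) × ℝ)) (hA : ∀ x ∈ A, x ∈ Smooth (MvPolynomial.map τ f))
    {Z : Set (∀ i, (Fin m → ℚ_[p i]) × ℚ_[p i])} (hZ : IsCompact Z)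
    (hZX : ∀ y ∈ Z, ∀ i, Free (MvPolynomial.map (σ i) f) (y i)) :
    ∃ (L : Type) (_ : Field L) (_ : CharZero L) (_ : Algebra K L),
      (∃ s : ℕ, Module.finrank K L = 2 ^ s) ∧ ∃ (σ' : ∀ i, L →+* ℚ_[p i]) (τ' : L →+* ℝ),
      (∀ i, (σ' i).comp (algebraMap K L) = σ i) ∧ τ'.comp (algebraMap K L) = τ ∧
      ∀ x ∈ A, ∀ x' ∈ connectedComponentIn (Smooth (MvPolynomial.map τ f)) x, ∀ y ∈ Z,
        (x', y) ∈ ClosureReal (MvPolynomial.map (algebraMap K L) f) σ' τ' := by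
  rcases isEmpty_or_nonempty ι with he | hne
  swap
  · exact main1 hK hd hirr hg j₀ hinj σ τ A hA hZ hZX
  rcases A.eq_empty_or_nonempty with rfl | ⟨x₀, hx₀⟩
  · exact ⟨K, inferInstance, inferInstance, inferInstance, ⟨0, by simp⟩, σ, τ,
      fun i => by ext; rfl, by ext; rfl, fun x hx => absurd hx (Finset.notMem_empty x)⟩
  · obtain ⟨x', hx', hw⟩ := comp_off (hA x₀ hx₀)
    have hx's : x' ∈ Smooth (MvPolynomial.map τ f) := connectedComponentIn_subset _ _ hx'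
    let p₀ : Empty → ℕ := fun e => e.elim
    have : ∀ i, Fact (p₀ i).Prime := fun i => i.elim
    obtain ⟨L₀, _, _, _, _, -, -, -, -, -, P, hP, -, -⟩ := step (p := p₀) hK hd hirr hg j₀
      (fun i => i.elim) (fun i => i.elim) τ (x := x') (y := fun i => i.elim) hx's.1 hw
      (fun i => i.elim) (fun i => i.elim) one_pos
    obtain ⟨q, hq, ⟨φ⟩⟩ := Pool.Agent.Y742.GG.exists_emb_fg L₀ (hK.of_finite (L := L₀))
    have h4 := Free_map φ hP
    rw [MvPolynomial.map_map] at h4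
    let p₁ : Unit → ℕ := fun _ => q
    have : ∀ i, Fact (p₁ i).Prime := fun _ => hq
    obtain ⟨L, i1, i2, i3, hrk, σ', τ', hσ, hτ, h5⟩ := main1 (ι := Unit) (p := p₁) hK hd hirr hg j₀
      (fun _ _ _ => rfl) (fun _ => φ.comp (algebraMap K L₀)) τ A hA
      (Z := {fun _ => image φ P}) isCompact_singleton (by
        rintro _ rfl _
        exact h4)
    refine ⟨L, i1, i2, i3, hrk, fun i => he.elim i, τ', fun i => he.elim i, hτ,
      fun x hx x' hx' y hy => ?_⟩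
    have h6 := h5 x hx x' hx' _ rfl
    rw [mem_cl] at h6 ⊢
    intro η hη
    obtain ⟨a, b, g1, g2, -⟩ := h6 η hη
    exact ⟨a, b, g1, g2, fun i => he.elim i⟩

/-- **One component and one open set: a quadratic extension suffices.** -/
theorem main3 [Nonempty ι] (hK : Pool.Agent.Y742.GG.FG K) (hd : ∀ j, f.degreeOf j ≤ 4)
    (hirr : AbsIrr f) (hg : ∀ j, ∃ z, Tq f (Pi.single j 1) z ≠ 0) (j₀ : Fin m)
    (hinj : Function.Injective p) (σ : ∀ i, K →+* ℚ_[p i]) (τ : K →+* ℝ)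
    {x : (Fin m → ℝ) × ℝ} (hx : x ∈ Smooth (MvPolynomial.map τ f))
    {y : ∀ i, (Fin m → ℚ_[p i]) × ℚ_[p i]}
    (hy : ∀ i, Free (MvPolynomial.map (σ i) f) (y i)) :
    ∃ (L : Type) (_ : Field L) (_ : CharZero L) (_ : Algebra K L),
      Module.finrank K L = 2 ∧ ∃ (σ' : ∀ i, L →+* ℚ_[p i]) (τ' : L →+* ℝ),
      (∀ i, (σ' i).comp (algebraMap K L) = σ i) ∧ τ'.comp (algebraMap K L) = τ ∧
      ∃ U ∈ 𝓝 y, ∀ x' ∈ connectedComponentIn (Smooth (MvPolynomial.map τ f)) x, ∀ y' ∈ U,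
        (∀ i, OnCover (MvPolynomial.map (σ i) f) (y' i)) →
        (x', y') ∈ ClosureReal (MvPolynomial.map (algebraMap K L) f) σ' τ' := by
  have : Fintype ι := Fintype.ofFinite ι
  obtain ⟨x₁, hx₁, hfr⟩ := real_pt hK hd hirr hg j₀ τ hx
  obtain ⟨ε, hε, hloc⟩ := open_loc hinj hfr hy
  obtain ⟨L, i1, i2, i3, -, hrk, σ', τ', hσ, hτ, P, hP, hP1, hP2⟩ := step hK hd hirr hg j₀ hinj σ τ
    hfr.1 hfr.2.1 (fun i => (hy i).1) (fun i => (hy i).2.1) hε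
  have hmτ : MvPolynomial.map τ' (MvPolynomial.map (algebraMap K L) f) = MvPolynomial.map τ f := by
    rw [MvPolynomial.map_map, hτ]
  have hmσ : ∀ i, MvPolynomial.map (σ' i) (MvPolynomial.map (algebraMap K L) f) =
      MvPolynomial.map (σ i) f := by
    intro i
    rw [MvPolynomial.map_map, hσ]
  have hdL : ∀ k, (MvPolynomial.map (algebraMap K L) f).degreeOf k ≤ 4 :=
    fun k => degreeOf_map_le _ (hd k)
  have hI : ∀ j, Inf (MvPolynomial.map (algebraMap K L) f) σ' y j := by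
    intro j
    obtain ⟨i⟩ := ‹Nonempty ι›
    have h1 := hy i
    rw [← hmσ i] at h1
    exact inf_of h1.1 h1.2.1 (h1.2.2 j)
  choose ρ hρ hρb using fun j => (hI j).nhd
  obtain ⟨ρ', hρ', hle⟩ := fin_min hρ
  have hs₁ : x₁ ∈ Smooth (MvPolynomial.map τ f) := connectedComponentIn_subset _ _ hx₁
  have hmin : 0 < min ε ρ' := lt_min hε hρ'
  refine ⟨L, i1, i2, i3, hrk, σ', τ', hσ, hτ, Metric.ball y (min ε ρ'),
    Metric.ball_mem_nhds y hmin, fun x' hx' y' hy' hon' => ?_⟩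
  rw [Metric.mem_ball, dist_pi_lt_iff hmin] at hy'
  have hyy : ∀ i, (∀ l, ‖(y' i).1 l - (y i).1 l‖ < min ε ρ') ∧ ‖(y' i).2 - (y i).2‖ < min ε ρ' := by
    intro i
    have h3 := hy' i
    rw [Prod.dist_eq, max_lt_iff, dist_pi_lt_iff hmin] at h3
    simp only [dist_eq_norm] at h3
    exact h3
  have hcl : (x₁, y') ∈ ClosureReal (MvPolynomial.map (algebraMap K L) f) σ' τ' := by
    refine hloc L σ' τ' _ hdL hmσ hmτ P hP.1 hP1 hP2 _ _ hfr.1 hon' ⟨fun l => ?_, ?_⟩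
      fun i => ⟨fun l => ((hyy i).1 l).trans_le (min_le_left _ _),
        (hyy i).2.trans_le (min_le_left _ _)⟩
    · rw [sub_self, abs_zero]; exact hε
    · rw [sub_self, abs_zero]; exact hε
  refine Pool.Agent.L5helper15.KD.comp hdL (fun j => hρb j y' fun i =>
    ⟨fun l => ((hyy i).1 l).trans_le ((min_le_right _ _).trans (hle j)),
      (hyy i).2.trans_le ((min_le_right _ _).trans (hle j))⟩) hcl (by rw [hmτ]; exact hs₁)
    (z' := x') ?_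
  rw [hmτ, ← connectedComponentIn_eq hx₁]
  exact hx'

end main

end Pool.Agent.L5helper15.KU
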