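import Pool.Agent.L5helper15.KU.U3
import Pool.Agent.L5helper15.KD.Pot1
import Pool.Agent.Y742.GG.Pad

/-! Places where the branch divisor has good points -/

set_option autoImplicit false
set_option linter.unusedVariables false
set_option linter.unusedSectionVars false

open Filter Topology

namespace Pool.Agent.L5helper15.KU

open MvPolynomial Pool.Agent.Y720.MZ Pool.Agent.L5helper15.KD
  Pool.Agent.Results.MP_ed3816_nt.OpenAwayFromTorsion

section irr

lemma isUnit_mv {F : Type*} [Field F] {m : ℕ} {P : MvPolynomial (Fin m) F} :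
    IsUnit P ↔ ∃ c : F, c ≠ 0 ∧ P = C c := by
  constructor
  · intro h
    rw [MvPolynomial.isUnit_iff_eq_C_of_isReduced] at h
    obtain ⟨r, hr, h⟩ := h
    exact ⟨r, hr.ne_zero, h⟩
  · rintro ⟨c, hc, rfl⟩
    exact (isUnit_iff_ne_zero.2 hc).map C

/-- irreducibility descends -/
lemma irr_desc {F M : Type*} [Field F] [Field M] (φ : F →+* M) {m : ℕ}
    {P : MvPolynomial (Fin m) F} (h : Irreducible (map φ P)) : Irreducible P := by
  have key : ∀ Q : MvPolynomial (Fin m) F, IsUnit (map φ Q) → IsUnit Q := by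
    intro Q hQ
    obtain ⟨c, hc, he⟩ := isUnit_mv.1 hQ
    have h1 : Q = C (coeff 0 Q) := by
      apply map_injective φ φ.injective
      rw [map_C]
      have h2 : φ (coeff 0 Q) = c := by
        rw [← coeff_map, he, coeff_zero_C]
      rw [h2, he]
    refine isUnit_mv.2 ⟨coeff 0 Q, ?_, h1⟩
    intro h0
    rw [h0, map_zero] at h1
    rw [h1, map_zero] at he
    exact hc (by
      have := he.symm
      rwa [map_eq_zero_iff _ (C_injective _ _)] at this)
  refine ⟨fun hu => h.not_isUnit (hu.map (MvPolynomial.map φ)), fun a b hab => ?_⟩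
  have := h.isUnit_or_isUnit (a := map φ a) (b := map φ b) (by rw [hab, map_mul])
  exact this.imp (key a) (key b)

/-- absolute irreducibility -/
def AbsIrr {F : Type} [Field F] {m : ℕ} (f : MvPolynomial (Fin m) F) : Prop :=
  ∃ (Ω : Type) (_ : Field Ω) (_ : IsAlgClosed Ω) (φ : F →+* Ω), Irreducible (map φ f)

lemma AbsIrr.ext {F : Type} [Field F] {m : ℕ} {f : MvPolynomial (Fin m) F} (h : AbsIrr f)
    (L : Type) [Field L] [Algebra F L] [Algebra.IsAlgebraic F L] :
    ∃ (Ω : Type) (_ : Field Ω) (_ : IsAlgClosed Ω) (φ : L →+* Ω),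
      Irreducible (map φ (map (algebraMap F L) f)) := by
  obtain ⟨Ω, _, _, φ, hφ⟩ := h
  let : Algebra F Ω := φ.toAlgebra
  let ψ : L →ₐ[F] Ω := IsAlgClosed.lift
  refine ⟨Ω, inferInstance, inferInstance, ψ.toRingHom, ?_⟩
  rw [MvPolynomial.map_map]
  have : (ψ.toRingHom).comp (algebraMap F L) = φ := by
    ext x
    exact ψ.commutes x
  rw [this]
  exact hφ

end irr

section tq

variable {F : Type} [Field F] [CharZero F] {m : ℕ} {f : MvPolynomial (Fin m) F}

lemma Tq_zero_of {z : Fin m → F} {j : Fin m} (h : pderiv j f = 0) : Tq f (Pi.single j 1) z = 0 := by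
  have h1 : Polynomial.derivative (rst f z (Pi.single j 1)) = 0 := by
    have h3 : dd f (Pi.single j 1) = 0 := by rw [dd_single, h]
    rw [rst_deriv, h3]
    unfold rst
    rw [map_zero]
  have h2 : ∀ i : Fin 4, cq f z (Pi.single j 1) i = 0 := by
    intro i
    have h3 : (Polynomial.derivative (rst f z (Pi.single j 1))).coeff (i : ℕ) = 0 := by
      rw [h1, Polynomial.coeff_zero]
    rw [Polynomial.coeff_derivative] at h3
    have h4 : ((i : ℕ) : F) + 1 ≠ 0 := Nat.cast_add_one_ne_zero _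
    exact (mul_eq_zero.1 h3).resolve_right h4
  simp only [Tq, dsc, h2]
  ring

/-- the branch divisor is not contained in the discriminant -/
lemma not_dvd_Tq (hd : ∀ j, f.degreeOf j ≤ 4) {j : Fin m} {z : Fin m → F}
    (hz : Tq f (Pi.single j 1) z ≠ 0) (hf : ¬ IsUnit f) : ¬ f ∣ TqP f (Pi.single j 1) := by
  rintro ⟨G, hG⟩
  let Ω := AlgebraicClosure F
  let φ : F →+* Ω := algebraMap F Ω
  have : CharZero Ω := charZero_of_injective_ringHom φ.injective
  have h1 : TqP (map φ f) (Pi.single j 1) = map φ f * map φ G := by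
    rw [← map_mul, ← hG, TqP_map]
    congr 1
    rw [single_s]
  have hd' : (map φ f).degreeOf j ≤ 4 := degreeOf_map_le φ (hd j)
  have hTz : Tq (map φ f) (Pi.single j 1) (fun a => φ (z a)) ≠ 0 := by
    have h2 : Tq (map φ f) (Pi.single j 1) (fun a => φ (z a)) = φ (Tq f (Pi.single j 1) z) := by
      rw [← TqP_eval, ← TqP_eval]
      have h3 : TqP (map φ f) (Pi.single j 1) = map φ (TqP f (Pi.single j 1)) := by
        rw [TqP_map]
        congr 1
        rw [single_s]
      rw [h3, eval_map, ← eval₂_id, eval₂_comp_left, RingHom.comp_id]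
      rfl
    rw [h2]
    exact (map_ne_zero φ).2 hz
  obtain ⟨Q, hQ⟩ : ∃ Q, Q = rst (map φ f) (fun a => φ (z a)) (Pi.single j 1) := ⟨_, rfl⟩
  have hQd : Q.degree ≠ 0 := by
    intro h0
    apply hTz
    have h2 : ∀ i : Fin 4, cq (map φ f) (fun a => φ (z a)) (Pi.single j 1) i = 0 := by
      intro i
      change (rst (map φ f) (fun a => φ (z a)) (Pi.single j 1)).coeff ((i : ℕ) + 1) = 0
      rw [← hQ, Polynomial.eq_C_of_degree_eq_zero h0, Polynomial.coeff_C_succ]
    simp only [Tq, dsc, h2]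
    ring
  obtain ⟨t, ht⟩ := IsAlgClosed.exists_root Q hQd
  have h3 : eval (fun a => φ (z a) + t * (Pi.single j 1 : Fin m → Ω) a) (map φ f) = 0 := by
    have h4 : Q.eval t = 0 := ht
    rw [hQ, rst_eval] at h4
    rw [← h4]
    congr 1
  have h5 := congrArg (eval (fun a => φ (z a) + t * (Pi.single j 1 : Fin m → Ω) a)) h1
  rw [map_mul, h3, zero_mul, TqP_eval, Pool.Agent.Q275.KC.Tq_shift (fun z => deg_rst hd' z)] at h5
  exact hTz h5

end tq

section place

variable {K : Type} [Field K] [CharZero K] {m : ℕ} {f : MvPolynomial (Fin m) K}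

lemma norm_prod_primes {q : ℕ} [hq : Fact q.Prime] {S : Finset ℕ} (hS : ∀ s ∈ S, s.Prime) (h : q ∈ S) :
    ‖((∏ s ∈ S, s : ℕ) : ℚ_[q])‖ = (q : ℝ)⁻¹ := by
  rw [Nat.cast_prod, norm_prod, Finset.prod_eq_single q]
  · exact Padic.norm_p
  · intro s hs hsq
    rw [Padic.norm_natCast_eq_one_iff]
    exact (Nat.coprime_primes hq.out (hS s hs)).2 (Ne.symm hsq)
  · exact fun h' => absurd h h'

/-- **Good points of the branch divisor at places outside a given finite set.** -/
theorem exists_place (hK : Pool.Agent.Y742.GG.FG K) (hd : ∀ j, f.degreeOf j ≤ 4) (hirr : AbsIrr f)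
    (hg : ∀ j, ∃ z, Tq f (Pi.single j 1) z ≠ 0) (j₀ : Fin m) (S : Finset ℕ)
    (hS : ∀ s ∈ S, s.Prime) :
    ∃ (q : ℕ) (_ : Fact q.Prime) (σ : K →+* ℚ_[q]) (x : Fin m → ℚ_[q]), q ∉ S ∧
      eval x (MvPolynomial.map σ f) = 0 ∧
      (∀ j, eval x (pderiv j (MvPolynomial.map σ f)) ≠ 0) ∧
      ∀ j, Tq (MvPolynomial.map σ f) (Pi.single j 1) x ≠ 0 := by
  classical
  obtain ⟨d, hd0⟩ : ∃ d : ℕ, d = ∏ s ∈ S, s := ⟨_, rfl⟩
  obtain ⟨ζ, hζ⟩ := IsAlgClosed.exists_pow_nat_eq ((d : ℕ) : AlgebraicClosure K) (n := 2) two_pos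
  set L := IntermediateField.adjoin K {ζ} with hL
  have hfd : FiniteDimensional K L :=
    IntermediateField.adjoin.finiteDimensional (Algebra.IsIntegral.isIntegral ζ)
  have hcL : CharZero L := charZero_of_injective_algebraMap (algebraMap K L).injective
  obtain ⟨z, hz⟩ : ∃ z : L, z ^ 2 = (d : L) := by
    refine ⟨⟨ζ, IntermediateField.mem_adjoin_simple_self K ζ⟩, ?_⟩
    apply (algebraMap L (AlgebraicClosure K)).injective
    rw [map_pow, map_natCast]
    exact hζ
  obtain ⟨F, hF⟩ : ∃ F : MvPolynomial (Fin m) L, F = MvPolynomial.map (algebraMap K L) f := ⟨_, rfl⟩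
  have hFd : ∀ j, F.degreeOf j ≤ 4 := fun j => by rw [hF]; exact degreeOf_map_le _ (hd j)
  have hFirr : Irreducible F := by
    obtain ⟨Ω, _, _, φ, h⟩ := hirr.ext L
    rw [← hF] at h
    exact irr_desc φ h
  have hFg : ∀ j, ∃ z, Tq F (Pi.single j 1) z ≠ 0 := by
    intro j
    obtain ⟨z, hz⟩ := hg j
    refine ⟨fun a => algebraMap K L (z a), ?_⟩
    have h2 : Tq F (Pi.single j 1) (fun a => algebraMap K L (z a)) =
        algebraMap K L (Tq f (Pi.single j 1) z) := by
      rw [← TqP_eval, ← TqP_eval]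
      have h3 : TqP F (Pi.single j 1) = MvPolynomial.map (algebraMap K L) (TqP f (Pi.single j 1)) := by
        rw [TqP_map, hF]
        congr 1
        rw [single_s]
      rw [h3, eval_map, ← eval₂_id, eval₂_comp_left, RingHom.comp_id]
      rfl
    rw [h2]
    exact (map_ne_zero _).2 hz
  have hpd : ∀ j, pderiv j F ≠ 0 := by
    intro j h0
    obtain ⟨z, hz⟩ := hFg j
    exact hz (Tq_zero_of h0)
  obtain ⟨q, hq, σ, x, h1, -⟩ := Pool.Agent.Y742.GG.exists_generic (hK.of_finite (L := L)) hFirr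
    (hpd j₀)
  have hmap : MvPolynomial.map (σ.comp (algebraMap K L)) f = MvPolynomial.map σ F := by
    rw [hF, MvPolynomial.map_map]
  refine ⟨q, hq, σ.comp (algebraMap K L), x, ?_, ?_, fun j => ?_, fun j => ?_⟩
  · intro hqS
    refine nonsq_norm (q := q) (u := σ z) (d := ((d : ℕ) : ℚ_[q])) ?_ ?_
    · rw [← map_pow, hz, map_natCast]
    · rw [hd0]; exact norm_prod_primes hS hqS
  · rw [hmap, eval_map]
    exact (h1 F).2 dvd_rfl
  · rw [hmap, pderiv_map, eval_map]
    exact fun h0 => Pool.Agent.Y742.GG.not_dvd_pderiv (hpd j) ((h1 _).1 h0)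
  · obtain ⟨z, hz⟩ := hFg j
    have h3 : TqP (MvPolynomial.map σ F) (Pi.single j 1) =
        MvPolynomial.map σ (TqP F (Pi.single j 1)) := by
      rw [TqP_map]
      congr 1
      rw [single_s]
    rw [hmap, ← TqP_eval, h3, eval_map]
    exact fun h0 => not_dvd_Tq hFd hz hFirr.not_isUnit ((h1 _).1 h0)

end place

end Pool.Agent.L5helper15.KU
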