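import Pool.Agent.L5helper15.KU.Pl

/-! Points over quadratic extensions close to given local points -/

set_option autoImplicit false
set_option linter.unusedVariables false
set_option linter.unusedSectionVars false

open Filter Topology

namespace Pool.Agent.L5helper15.KU

open MvPolynomial Pool.Agent.Y720.MZ Pool.Agent.L5helper15.KD
  Pool.Agent.Results.MP_ed3816_nt.OpenAwayFromTorsion

section wa

variable {ι : Type} [Finite ι] {p : ι → ℕ} [hp : ∀ i, Fact (p i).Prime] {q₁ q₂ : ℕ}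
  [h₁ : Fact q₁.Prime] [h₂ : Fact q₂.Prime]

/-- the primes -/
def pp (q₁ q₂ : ℕ) (p : ι → ℕ) : Option (Option ι) → ℕ
  | none => q₁
  | some none => q₂
  | some (some i) => p i

instance ppF : ∀ v, Fact (pp q₁ q₂ p v).Prime
  | none => h₁
  | some none => h₂
  | some (some i) => hp i

variable {K : Type} [Field K] [CharZero K]

/-- the embeddings -/
noncomputable def ss (σ₁ : K →+* ℚ_[q₁]) (σ₂ : K →+* ℚ_[q₂]) (σ : ∀ i, K →+* ℚ_[p i]) :
    ∀ v, K →+* ℚ_[pp q₁ q₂ p v]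
  | none => σ₁
  | some none => σ₂
  | some (some i) => σ i

/-- weak approximation -/
lemma wa (hinj : Function.Injective p) (h1 : ∀ i, p i ≠ q₁) (h2 : ∀ i, p i ≠ q₂) (h12 : q₁ ≠ q₂)
    (σ₁ : K →+* ℚ_[q₁]) (σ₂ : K →+* ℚ_[q₂]) (σ : ∀ i, K →+* ℚ_[p i]) (τ : K →+* ℝ)
    (a₁ : ℚ_[q₁]) (a₂ : ℚ_[q₂]) (b : ∀ i, ℚ_[p i]) (c : ℝ) {η : ℝ} (hη : 0 < η) :
    ∃ x : K, ‖σ₁ x - a₁‖ < η ∧ ‖σ₂ x - a₂‖ < η ∧ (∀ i, ‖σ i x - b i‖ < η) ∧ |τ x - c| < η := by
  have hinj' : Function.Injective (pp q₁ q₂ p) := by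
    rintro (_ | _ | i) (_ | _ | j) h
    · rfl
    · exact absurd h h12
    · exact absurd h.symm (h1 j)
    · exact absurd h.symm h12
    · rfl
    · exact absurd h.symm (h2 j)
    · exact absurd h (h1 i)
    · exact absurd h (h2 i)
    · rw [hinj h]
  let m : ∀ v, Lv (pp q₁ q₂ p) v := fun v => match v with
    | none => c
    | some none => a₁
    | some (some none) => a₂
    | some (some (some i)) => b i
  obtain ⟨x, hx⟩ := dn_all hinj' (ss σ₁ σ₂ σ) τ m η hη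
  exact ⟨x, hx (some none), hx (some (some none)), fun i => hx (some (some (some i))), hx none⟩

end wa

section ev

lemma eval_map' {F M : Type*} [Field F] [Field M] (φ : F →+* M) {m : ℕ}
    (f : MvPolynomial (Fin m) F) (a : Fin m → F) :
    eval (fun k => φ (a k)) (MvPolynomial.map φ f) = φ (eval a f) := by
  rw [eval_map, ← eval₂_id, eval₂_comp_left, RingHom.comp_id]
  rfl

end ev

section step

variable {K : Type} [Field K] [CharZero K] {m : ℕ} {f : MvPolynomial (Fin m) K} {ι : Type}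
  [Finite ι] {p : ι → ℕ} [hp : ∀ i, Fact (p i).Prime]

/-- **Points over quadratic extensions.** -/
theorem step (hK : Pool.Agent.Y742.GG.FG K) (hd : ∀ j, f.degreeOf j ≤ 4) (hirr : AbsIrr f)
    (hg : ∀ j, ∃ z, Tq f (Pi.single j 1) z ≠ 0) (j₀ : Fin m) (hinj : Function.Injective p)
    (σ : ∀ i, K →+* ℚ_[p i]) (τ : K →+* ℝ) {x : (Fin m → ℝ) × ℝ}
    {y : ∀ i, (Fin m → ℚ_[p i]) × ℚ_[p i]} (hx : onX (MvPolynomial.map τ f) x.1 x.2)
    (hx0 : x.2 ≠ 0) (hy : ∀ i, onX (MvPolynomial.map (σ i) f) (y i).1 (y i).2)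
    (hy0 : ∀ i, (y i).2 ≠ 0) {ε : ℝ} (hε : 0 < ε) :
    ∃ (L : Type) (_ : Field L) (_ : CharZero L) (_ : Algebra K L), FiniteDimensional K L ∧
      Module.finrank K L = 2 ∧ ∃ (σ' : ∀ i, L →+* ℚ_[p i]) (τ' : L →+* ℝ),
      (∀ i, (σ' i).comp (algebraMap K L) = σ i) ∧ τ'.comp (algebraMap K L) = τ ∧
      ∃ P : (Fin m → L) × L, Free (MvPolynomial.map (algebraMap K L) f) P ∧
        ((∀ k, |τ' (P.1 k) - x.1 k| < ε) ∧ |τ' P.2 - x.2| < ε) ∧
        ∀ i, (∀ k, ‖σ' i (P.1 k) - (y i).1 k‖ < ε) ∧ ‖σ' i P.2 - (y i).2‖ < ε := by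
  classical
  have : Fintype ι := Fintype.ofFinite ι
  -- the auxiliary places
  obtain ⟨q₁, hq₁, σ₁, x₁, hn₁, h10, h11, h12⟩ := exists_place hK hd hirr hg j₀
    (Finset.univ.image p) (by
      intro s hs
      obtain ⟨i, -, rfl⟩ := Finset.mem_image.1 hs
      exact (hp i).out)
  obtain ⟨q₂, hq₂, σ₂, x₂, hn₂, h20, h21, h22⟩ := exists_place hK hd hirr hg j₀
    (insert q₁ (Finset.univ.image p)) (by
      intro s hs
      rcases Finset.mem_insert.1 hs with rfl | hs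
      · exact hq₁.out
      · obtain ⟨i, -, rfl⟩ := Finset.mem_image.1 hs
        exact (hp i).out)
  have hne1 : ∀ i, p i ≠ q₁ := fun i h => hn₁ (h ▸ Finset.mem_image_of_mem p (Finset.mem_univ i))
  have hne2 : ∀ i, p i ≠ q₂ := fun i h => hn₂ (Finset.mem_insert_of_mem
    (h ▸ Finset.mem_image_of_mem p (Finset.mem_univ i)))
  have hne12 : q₁ ≠ q₂ := fun h => hn₂ (by rw [h]; exact Finset.mem_insert_self _ _)
  -- the first place
  obtain ⟨δ₁, hδ₁, hfree⟩ := branch_free h10 h11 h12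
  obtain ⟨t₁, Y₁, k1, k2, k3, k4⟩ := branch_val h10 (h11 j₀) (c := 1) one_ne_zero
    (half_pos hδ₁)
  obtain ⟨A₁, hA₁⟩ : ∃ A₁ : Fin m → ℚ_[q₁],
    A₁ = fun k => x₁ k + t₁ * (Pi.single j₀ 1 : Fin m → ℚ_[q₁]) k := ⟨_, rfl⟩
  rw [← hA₁, one_mul] at k4
  obtain ⟨ρ₁, hρ₁, hs₁⟩ := sq_near (x := A₁) (y := Y₁) k4.symm k3 (ε := min (δ₁ / 2) ‖Y₁‖)
    (lt_min (half_pos hδ₁) (norm_pos_iff.2 k3))
  -- the second place
  obtain ⟨t₂, Y₂, l1, l2, l3, l4⟩ := branch_val h20 (h21 j₀) (c := (q₂ : ℚ_[q₂]))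
    (by exact_mod_cast hq₂.out.ne_zero) one_pos
  obtain ⟨A₂, hA₂⟩ : ∃ A₂ : Fin m → ℚ_[q₂],
    A₂ = fun k => x₂ k + t₂ * (Pi.single j₀ 1 : Fin m → ℚ_[q₂]) k := ⟨_, rfl⟩
  rw [← hA₂] at l4
  obtain ⟨ρ₂, hρ₂, hs₂⟩ := nonsq_near l3 l4
  -- the given places
  obtain ⟨ρ₃, hρ₃, hs₃⟩ := sq_near hx hx0 hε
  choose ρ₄ hρ₄ hs₄ using fun i => sq_near (hy i) (hy0 i) hε
  obtain ⟨ρ₄', hρ₄', hle₄⟩ := fin_min hρ₄
  obtain ⟨η, hη⟩ : ∃ η, η = min (min (min ρ₁ (δ₁ / 2)) ρ₂) (min (min ρ₃ ρ₄') ε) := ⟨_, rfl⟩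
  have hη0 : 0 < η := by
    rw [hη]
    exact lt_min (lt_min (lt_min hρ₁ (half_pos hδ₁)) hρ₂) (lt_min (lt_min hρ₃ hρ₄') hε)
  have e1 : η ≤ ρ₁ := by rw [hη]; exact (min_le_left _ _).trans ((min_le_left _ _).trans (min_le_left _ _))
  have e1' : η ≤ δ₁ / 2 := by
    rw [hη]; exact (min_le_left _ _).trans ((min_le_left _ _).trans (min_le_right _ _))
  have e2 : η ≤ ρ₂ := by rw [hη]; exact (min_le_left _ _).trans (min_le_right _ _)
  have e3 : η ≤ ρ₃ := by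
    rw [hη]; exact (min_le_right _ _).trans ((min_le_left _ _).trans (min_le_left _ _))
  have e4 : η ≤ ρ₄' := by
    rw [hη]; exact (min_le_right _ _).trans ((min_le_left _ _).trans (min_le_right _ _))
  have e5 : η ≤ ε := by rw [hη]; exact (min_le_right _ _).trans (min_le_right _ _)
  choose a a1 a2 a3 a4 using fun k => wa hinj hne1 hne2 hne12 σ₁ σ₂ σ τ (A₁ k) (A₂ k)
    (fun i => (y i).1 k) (x.1 k) hη0
  obtain ⟨D, hD⟩ : ∃ D, D = eval a f := ⟨_, rfl⟩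
  -- the square roots
  obtain ⟨b₁, c1, c2⟩ := hs₁ (fun k => σ₁ (a k)) (fun k => (a1 k).trans_le e1)
  obtain ⟨b₃, c3, c4⟩ := hs₃ (fun k => τ (a k)) (fun k => (a4 k).trans_le e3)
  choose b₄ c5 c6 using fun i => hs₄ i (fun k => σ i (a k)) (fun k => (a3 k i).trans_le (e4.trans (hle₄ i)))
  have hnon := hs₂ (fun k => σ₂ (a k)) (fun k => (a2 k).trans_le e2)
  unfold onX at c2 c4 c6
  rw [eval_map', ← hD] at c2 c4 hnon
  simp only [eval_map', ← hD] at c6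
  have hDns : ∀ b : K, b ^ 2 ≠ D := fun b hb => hnon ⟨σ₂ b, by rw [← map_pow, hb]⟩
  have hirr2 : Irreducible (Polynomial.X ^ 2 - Polynomial.C D) :=
    X_pow_sub_C_irreducible_of_prime Nat.prime_two hDns
  have hfact : Fact (Irreducible (Polynomial.X ^ 2 - Polynomial.C D)) := ⟨hirr2⟩
  obtain ⟨R, hR⟩ : ∃ R : Polynomial K, R = Polynomial.X ^ 2 - Polynomial.C D := ⟨_, rfl⟩
  rw [← hR] at hfact hirr2
  have hc0 : CharZero (AdjoinRoot R) :=
    charZero_of_injective_algebraMap (algebraMap K (AdjoinRoot R)).injective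
  have hev : ∀ {M : Type} [CommRing M] (φ : K →+* M) (b : M), R.eval₂ φ b = b ^ 2 - φ D := by
    intro M _ φ b
    rw [hR, Polynomial.eval₂_sub, Polynomial.eval₂_pow, Polynomial.eval₂_X, Polynomial.eval₂_C]
  have hlift : ∀ {M : Type} [Field M] (φ : K →+* M) (b : M), b ^ 2 = φ D →
      R.eval₂ φ b = 0 := by
    intro M _ φ b hb
    rw [hev, hb, sub_self]
  have hcmp : ∀ {M : Type} [Field M] (φ : K →+* M) (b : M) (h : R.eval₂ φ b = 0),
      (AdjoinRoot.lift φ b h).comp (algebraMap K (AdjoinRoot R)) = φ := by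
    intro M _ φ b h
    exact RingHom.ext fun z => @AdjoinRoot.lift_of _ _ _ _ _ _ _ h _
  have hroot : (AdjoinRoot.root R) ^ 2 = algebraMap K (AdjoinRoot R) D := by
    have h := AdjoinRoot.eval₂_root R
    rw [hev] at h
    exact sub_eq_zero.1 h
  have hR0 : R ≠ 0 := hirr2.ne_zero
  have hdeg : R.natDegree = 2 := by rw [hR]; exact Polynomial.natDegree_X_pow_sub_C
  refine ⟨AdjoinRoot R, inferInstance, hc0, inferInstance, (AdjoinRoot.powerBasis hR0).finite, ?_,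
    fun i => AdjoinRoot.lift (σ i) (b₄ i) (hlift _ _ (c6 i)),
    AdjoinRoot.lift τ b₃ (hlift _ _ c4), fun i => ?_, ?_,
    (fun k => algebraMap K (AdjoinRoot R) (a k), AdjoinRoot.root R), ?_, ?_, ?_⟩
  · rw [(AdjoinRoot.powerBasis hR0).finrank, AdjoinRoot.powerBasis_dim, hdeg]
  · exact hcmp _ _ _
  · exact hcmp _ _ _
  · -- the point is free
    obtain ⟨σ₁', hσ₁'⟩ : ∃ σ₁' : AdjoinRoot R →+* ℚ_[q₁],
      σ₁' = AdjoinRoot.lift σ₁ b₁ (hlift _ _ c2) := ⟨_, rfl⟩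
    have hcomp : σ₁'.comp (algebraMap K (AdjoinRoot R)) = σ₁ := by
      rw [hσ₁']
      exact hcmp _ _ _
    refine hfree (AdjoinRoot R) σ₁' (MvPolynomial.map (algebraMap K (AdjoinRoot R)) f) ?_ _ _ ?_ ?_ ?_ ?_
    · rw [MvPolynomial.map_map, hcomp]
    · unfold onX
      rw [hroot, eval_map', hD]
    · intro k
      have h1 : σ₁' (algebraMap K (AdjoinRoot R) (a k)) = σ₁ (a k) := RingHom.congr_fun hcomp (a k)
      rw [h1]
      have h2 := norm_sub_le_norm_sub_add_norm_sub (σ₁ (a k)) (A₁ k) (x₁ k)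
      have h3 : ‖A₁ k - x₁ k‖ < δ₁ / 2 := by
        rw [hA₁]
        simp only [add_sub_cancel_left]
        by_cases hk : k = j₀
        · subst hk
          rw [Pi.single_eq_same, mul_one]; exact k1
        · rw [Pi.single_eq_of_ne hk, mul_zero, norm_zero]; exact half_pos hδ₁
      have h4 := (a1 k).trans_le e1'
      linarith
    · rw [hσ₁', AdjoinRoot.lift_root]
      have h2 := norm_le_norm_add_norm_sub' b₁ Y₁
      have h3 := c1.trans_le (min_le_left _ _)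
      linarith
    · intro h0
      have h1 := congrArg σ₁' h0
      rw [map_zero, hσ₁', AdjoinRoot.lift_root] at h1
      rw [h1, zero_sub, norm_neg] at c1
      exact lt_irrefl _ (c1.trans_le (min_le_right _ _))
  · refine ⟨fun k => ?_, ?_⟩
    · have h1 : AdjoinRoot.lift τ b₃ (hlift _ _ c4) (algebraMap K (AdjoinRoot R) (a k)) = τ (a k) :=
        RingHom.congr_fun (hcmp τ b₃ (hlift _ _ c4)) (a k)
      simp only [h1]
      exact (a4 k).trans_le e5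
    · rw [AdjoinRoot.lift_root]
      exact c3
  · intro i
    refine ⟨fun k => ?_, ?_⟩
    · have h1 : AdjoinRoot.lift (σ i) (b₄ i) (hlift _ _ (c6 i)) (algebraMap K (AdjoinRoot R) (a k)) =
        σ i (a k) := RingHom.congr_fun (hcmp (σ i) (b₄ i) (hlift _ _ (c6 i))) (a k)
      simp only [h1]
      exact (a3 k i).trans_le e5
    · rw [AdjoinRoot.lift_root]
      exact c5 i

end step

end Pool.Agent.L5helper15.KU
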