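import Pool.Agent.L5helper15.KD.Ad

/-! Multiples of points and extension of the field; the properties of the parameters close to a local
parameter, uniformly in the field -/

set_option autoImplicit false
set_option linter.unusedVariables false
set_option linter.unusedSectionVars false

open WeierstrassCurve Filter Topology

namespace Pool.Agent.L5helper15.KU

open Pool.Agent.Y720.MZ

section map

variable {F M : Type*} [Field F] [CharZero F] [DecidableEq F] [Field M] [CharZero M] [DecidableEq M]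

/-- multiples of a point and of its image -/
theorem mult_map (σ : F →+* M) {a b c x y : F} {a' b' c' x' y' : M} (ha : a' = σ a) (hb : b' = σ b)
    (hc : c' = σ c) (hx : x' = σ x) (hy : y' = σ y)
    (h : (cv a b c).toAffine.Nonsingular x y) (h' : (cv a' b' c').toAffine.Nonsingular x' y') (n : ℕ) :
    (n • (.some x y h : Pt a b c) = 0 ∧ n • (.some x' y' h' : Pt a' b' c') = 0) ∨
    ∃ (X Y : F) (hX : (cv a b c).toAffine.Nonsingular X Y)
      (hX' : (cv a' b' c').toAffine.Nonsingular (σ X) (σ Y)),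
      n • (.some x y h : Pt a b c) = .some X Y hX ∧
      n • (.some x' y' h' : Pt a' b' c') = .some (σ X) (σ Y) hX' := by
  subst ha hb hc hx hy
  induction n with
  | zero => left; simp
  | succ n ih =>
    rcases ih with ⟨e1, e2⟩ | ⟨X, Y, hX, hX', e1, e2⟩
    · right
      refine ⟨x, y, h, h', ?_, ?_⟩
      · rw [succ_nsmul, e1, zero_add]
      · rw [succ_nsmul, e2, zero_add]
    · rw [succ_nsmul, succ_nsmul, e1, e2]
      by_cases hxx : X = x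
      · subst hxx
        rcases eq_or_neg hX h with e | e
        · have hYy : Y = y := (Affine.Point.some.inj e).2
          subst hYy
          by_cases hy0 : 2 * Y = 0
          · left
            refine ⟨dbl_zero _ hy0, dbl_zero _ ?_⟩
            rw [← map_ofNat σ 2, ← map_mul, hy0, map_zero]
          · right
            have hy0' : 2 * σ Y ≠ 0 := by
              rw [← map_ofNat σ 2, ← map_mul]
              exact (map_ne_zero σ).2 hy0
            obtain ⟨h2, e3⟩ := dbl_mk h hy0 (ℓ := (3 * X ^ 2 + 2 * a * X + b) / (2 * Y))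
              (div_mul_cancel₀ _ hy0)
            obtain ⟨h3, e4⟩ := dbl_mk h' hy0' (ℓ := (3 * σ X ^ 2 + 2 * σ a * σ X + σ b) / (2 * σ Y))
              (div_mul_cancel₀ _ hy0')
            refine ⟨_, _, h2, ?_, e3, ?_⟩
            · convert h3 using 1 <;>
              simp only [map_neg, map_add, map_mul, map_sub, map_pow, map_div₀, map_ofNat]
            · refine e4.trans ?_
              congr 1 <;>
              simp only [map_neg, map_add, map_mul, map_sub, map_pow, map_div₀, map_ofNat]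
        · left
          have hYy : Y = -y := by
            have h1 : (-.some X y h : Pt a b c) = _ := Affine.Point.neg_some h
            rw [h1] at e
            have h2 := Affine.Point.some.inj e
            rw [h2.2, cv_negY]
          constructor
          · rw [e, neg_add_cancel]
          · obtain ⟨h3, e3⟩ := neg_mk h'
            have : (.some (σ X) (σ Y) hX' : Pt (σ a) (σ b) (σ c)) = -.some (σ X) (σ y) h' := by
              rw [e3]
              congr 1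
              rw [hYy, map_neg]
            rw [this, neg_add_cancel]
      · right
        have hxx' : σ X ≠ σ x := fun h0 => hxx (σ.injective h0)
        obtain ⟨h2, e3⟩ := add_mk hX h hxx (ℓ := (Y - y) / (X - x))
          (div_mul_cancel₀ _ (sub_ne_zero.2 hxx))
        obtain ⟨h3, e4⟩ := add_mk hX' h' hxx' (ℓ := (σ Y - σ y) / (σ X - σ x))
          (div_mul_cancel₀ _ (sub_ne_zero.2 hxx'))
        refine ⟨_, _, h2, ?_, e3, ?_⟩
        · convert h3 using 1 <;>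
          simp only [map_neg, map_add, map_mul, map_sub, map_pow, map_div₀, map_ofNat]
        · refine e4.trans ?_
          congr 1 <;>
          simp only [map_neg, map_add, map_mul, map_sub, map_pow, map_div₀, map_ofNat]

/-- the image of a parameter -/
def im (σ : F →+* M) (θ : F × (Fin 4 → F)) : M × (Fin 4 → M) := (σ θ.1, fun j => σ (θ.2 j))

lemma im_tA (σ : F →+* M) (θ : F × (Fin 4 → F)) : tA (im σ θ) = σ (tA θ) := rfl

lemma im_tB (σ : F →+* M) (θ : F × (Fin 4 → F)) : tB (im σ θ) = σ (tB θ) := by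
  simp only [tB, rb, map_sub, map_mul, map_pow, map_ofNat, im]

lemma im_tC (σ : F →+* M) (θ : F × (Fin 4 → F)) : tC (im σ θ) = σ (tC θ) := by
  simp only [tC, rc, map_sub, map_add, map_mul, map_pow, map_ofNat, im]

lemma im_tX (σ : F →+* M) (θ : F × (Fin 4 → F)) : tX (im σ θ) = σ (tX θ) := by
  simp only [tX, xs, map_sub, map_div₀, map_mul, map_pow, map_ofNat, im]

lemma im_tY (σ : F →+* M) (θ : F × (Fin 4 → F)) : tY (im σ θ) = σ (tY θ) := by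
  have := im_tX σ θ
  simp only [tX] at this
  simp only [tY, ys, map_add, map_div₀, map_mul, map_pow, map_ofNat, ← this]
  simp only [im]

lemma im_dsc (σ : F →+* M) (θ : F × (Fin 4 → F)) :
    dsc (tA (im σ θ)) (tB (im σ θ)) (tC (im σ θ)) = σ (dsc (tA θ) (tB θ) (tC θ)) := by
  rw [im_tA, im_tB, im_tC]
  simp only [dsc, map_sub, map_add, map_mul, map_pow, map_ofNat]

/-- infinite order is preserved -/
theorem IOt_map (σ : F →+* M) {θ : F × (Fin 4 → F)} (hw : θ.1 ≠ 0) (h : IOt θ) : IOt (im σ θ) := by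
  let : DecidableEq F := Classical.decEq F
  let : DecidableEq M := Classical.decEq M
  obtain ⟨hD, hS⟩ := h
  refine ⟨by rw [im_dsc]; exact (map_ne_zero σ).2 hD, fun h n hn h0 => ?_⟩
  have hns := tns hw hD
  have h1 := hS hns n hn
  rcases mult_map σ (im_tA σ θ) (im_tB σ θ) (im_tC σ θ) (im_tX σ θ) (im_tY σ θ) hns h n with
    ⟨e1, e2⟩ | ⟨X, Y, hX, hX', e1, e2⟩
  · exact h1 e1
  · rw [h0] at e2
    exact Affine.Point.some_ne_zero _ e2.symm

end map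

section tr

variable {F M : Type*} [Field F] [CharZero F] [DecidableEq F] [NontriviallyNormedField M] [CharZero M]
  [DecidableEq M]

/-- the size of the multiples -/
theorem mult_tr (σ : F →+* M) {θ : F × (Fin 4 → F)}
    (h : (cv (tA θ) (tB θ) (tC θ)).toAffine.Nonsingular (tX θ) (tY θ))
    (h' : (cv (tA (im σ θ)) (tB (im σ θ)) (tC (im σ θ))).toAffine.Nonsingular (tX (im σ θ))
      (tY (im σ θ))) (N : ℕ) :
    av σ (TT (N • (.some _ _ h : Pt (tA θ) (tB θ) (tC θ)))) =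
      av (RingHom.id M) (TT (N • (.some _ _ h' : Pt (tA (im σ θ)) (tB (im σ θ)) (tC (im σ θ))))) ∧
    ∀ ρ r : ℝ, Nb (av (RingHom.id M)) ρ r
        (N • (.some _ _ h' : Pt (tA (im σ θ)) (tB (im σ θ)) (tC (im σ θ)))) →
      Nb (av σ) ρ r (N • (.some _ _ h : Pt (tA θ) (tB θ) (tC θ))) := by
  rcases mult_map σ (im_tA σ θ) (im_tB σ θ) (im_tC σ θ) (im_tX σ θ) (im_tY σ θ) h h' N with
    ⟨e1, e2⟩ | ⟨X, Y, hX, hX', e1, e2⟩
  · rw [e1, e2]
    refine ⟨by simp, fun ρ r h0 => ?_⟩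
    exact h0
  · rw [e1, e2]
    refine ⟨?_, fun ρ r h0 => ?_⟩
    · rw [TT_some, TT_some, av_apply, av_apply, map_div₀]
      rfl
    · obtain ⟨k1, k2, k3⟩ := (Nb_some hX').1 h0
      refine (Nb_some hX).2 ⟨fun h0 => k1 (by rw [h0, map_zero]), ?_, ?_⟩
      · rw [av_apply, map_div₀]; exact k2
      · rw [av_apply, map_div₀, map_one]; exact k3

/-- the bounds of the coefficients -/
lemma Bd_tr (σ : F →+* M) {θ : F × (Fin 4 → F)} {C ρ : ℝ}
    (h : Bd (av (RingHom.id M)) (tA (im σ θ)) (tB (im σ θ)) (tC (im σ θ)) C ρ) :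
    Bd (av σ) (tA θ) (tB θ) (tC θ) C ρ := by
  rw [im_tA, im_tB, im_tC] at h
  exact ⟨h.hC, h.ha, h.hb, h.hc, h.hρ, h.hCρ⟩

end tr

section ev

lemma tnL_id {M : Type*} [NontriviallyNormedField M] (θ₀ : M × (Fin 4 → M)) :
    TnL (RingHom.id M) (𝓝 θ₀) θ₀ :=
  ⟨continuous_fst.continuousAt, fun i => ((continuous_apply i).comp continuous_snd).continuousAt⟩

lemma ev_ball {M : Type*} [NormedField M] {θ₀ : M × (Fin 4 → M)} {Φ : M × (Fin 4 → M) → Prop}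
    (h : ∀ᶠ θ in 𝓝 θ₀, Φ θ) : ∃ δ : ℝ, 0 < δ ∧ ∀ θ : M × (Fin 4 → M), ‖θ.1 - θ₀.1‖ < δ →
      (∀ j, ‖θ.2 j - θ₀.2 j‖ < δ) → Φ θ := by
  obtain ⟨δ, hδ, hb⟩ := Metric.eventually_nhds_iff_ball.1 h
  refine ⟨δ, hδ, fun θ h1 h2 => hb θ ?_⟩
  rw [Metric.mem_ball, Prod.dist_eq]
  refine max_lt (by rw [dist_eq_norm]; exact h1) ?_
  rw [dist_pi_lt_iff hδ]
  intro j
  rw [dist_eq_norm]
  exact h2 j

/-- the parameters close to a local one, at a `p`-adic place -/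
theorem ev_pU {p : ℕ} [Fact p.Prime] [DecidableEq ℚ_[p]] {θ₀ : ℚ_[p] × (Fin 4 → ℚ_[p])}
    (hw : θ₀.1 ≠ 0) (hD : dsc (tA θ₀) (tB θ₀) (tC θ₀) ≠ 0)
    (h₀ : (cv (tA θ₀) (tB θ₀) (tC θ₀)).toAffine.Nonsingular (tX θ₀) (tY θ₀))
    (hinf : ∀ n : ℕ, n ≠ 0 → n • (.some _ _ h₀ : Pt (tA θ₀) (tB θ₀) (tC θ₀)) ≠ 0) {N : ℕ}
    (hN : N ≠ 0) {r : ℝ} (hr : r ≤ 1 / (100 * CL θ₀))
    (hNb : Nb (av (RingHom.id _)) (1 / (100 * CL θ₀)) r
      (N • (.some _ _ h₀ : Pt (tA θ₀) (tB θ₀) (tC θ₀)))) :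
    ∃ δ : ℝ, 0 < δ ∧ ∀ (F : Type) [Field F] [CharZero F] [DecidableEq F] (σ : F →+* ℚ_[p])
      (θ : F × (Fin 4 → F)), ‖σ θ.1 - θ₀.1‖ < δ → (∀ j, ‖σ (θ.2 j) - θ₀.2 j‖ < δ) →
      θ.1 ≠ 0 ∧ dsc (tA θ) (tB θ) (tC θ) ≠ 0 ∧
      Bd (av σ) (tA θ) (tB θ) (tC θ) (CL θ₀) (1 / (100 * CL θ₀)) ∧
      ∀ h : (cv (tA θ) (tB θ) (tC θ)).toAffine.Nonsingular (tX θ) (tY θ),
        Nb (av σ) (1 / (100 * CL θ₀))
          (av (RingHom.id _) (TT (N • (.some _ _ h₀ : Pt (tA θ₀) (tB θ₀) (tC θ₀)))))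
          (N • (.some _ _ h : Pt (tA θ) (tB θ) (tC θ))) ∧
        av σ (TT (N • (.some _ _ h : Pt (tA θ) (tB θ) (tC θ)))) =
          av (RingHom.id _) (TT (N • (.some _ _ h₀ : Pt (tA θ₀) (tB θ₀) (tC θ₀)))) := by
  have hT := tnL_id θ₀
  obtain ⟨δ, hδ, hb⟩ := ev_ball ((hT.ne hw).and ((hT.dsc_ne hD).and (hT.Bd.and
    (ev_pL hT hw h₀ hinf hN hr hNb))))
  refine ⟨δ, hδ, fun F _ _ _ σ θ h1 h2 => ?_⟩
  obtain ⟨g1, g2, g3, g4⟩ := hb (im σ θ) h1 h2
  refine ⟨fun h0 => g1 (by simp only [im, h0, map_zero]), fun h0 => g2 (by rw [im_dsc, h0, map_zero]),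
    Bd_tr σ g3, fun h => ?_⟩
  have h' := tns g1 g2
  obtain ⟨e1, e2⟩ := mult_tr σ h h' N
  exact ⟨e2 _ _ (g4 h').1, e1.trans (g4 h').2⟩

/-- the parameters close to a local one, at a real place -/
theorem ev_rU [DecidableEq ℝ] {θ₀ : ℝ × (Fin 4 → ℝ)}
    (hw : θ₀.1 ≠ 0) (hD : dsc (tA θ₀) (tB θ₀) (tC θ₀) ≠ 0)
    (h₀ : (cv (tA θ₀) (tB θ₀) (tC θ₀)).toAffine.Nonsingular (tX θ₀) (tY θ₀))
    (hinf : ∀ n : ℕ, n ≠ 0 → n • (.some _ _ h₀ : Pt (tA θ₀) (tB θ₀) (tC θ₀)) ≠ 0) {N : ℕ}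
    (hN : N ≠ 0)
    (hNb : Nb (av (RingHom.id _)) (1 / (100 * CL θ₀)) (1 / (100 * CL θ₀) / 6)
      (N • (.some _ _ h₀ : Pt (tA θ₀) (tB θ₀) (tC θ₀)))) :
    ∃ δ : ℝ, 0 < δ ∧ ∀ (F : Type) [Field F] [CharZero F] [DecidableEq F] (σ : F →+* ℝ)
      (θ : F × (Fin 4 → F)), ‖σ θ.1 - θ₀.1‖ < δ → (∀ j, ‖σ (θ.2 j) - θ₀.2 j‖ < δ) →
      Bd (av σ) (tA θ) (tB θ) (tC θ) (CL θ₀) (1 / (100 * CL θ₀)) ∧
      ∀ h : (cv (tA θ) (tB θ) (tC θ)).toAffine.Nonsingular (tX θ) (tY θ),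
        Nb (av σ) (1 / (100 * CL θ₀)) (1 / (100 * CL θ₀) / 3)
          (N • (.some _ _ h : Pt (tA θ) (tB θ) (tC θ))) := by
  have hT := tnL_id θ₀
  obtain ⟨δ, hδ, hb⟩ := ev_ball ((hT.ne hw).and ((hT.dsc_ne hD).and (hT.Bd.and
    (ev_rL hT hw h₀ hinf hN hNb))))
  refine ⟨δ, hδ, fun F _ _ _ σ θ h1 h2 => ?_⟩
  obtain ⟨g1, g2, g3, g4⟩ := hb (im σ θ) h1 h2
  refine ⟨Bd_tr σ g3, fun h => ?_⟩
  have h' := tns g1 g2
  exact (mult_tr σ h h' N).2 _ _ (g4 h')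

/-- from the quartic to the resolvent -/
theorem convU {M : Type*} [NontriviallyNormedField M] [CharZero M] {w₀ : M} {q₀ : Fin 4 → M}
    (hw : w₀ ≠ 0) {r ρ : ℝ} (hr : 0 < r)
    (hρ : 0 < ρ) : ∃ δ : ℝ, 0 < δ ∧ ∀ (F : Type) [Field F] [CharZero F] (σ : F →+* M) (w : F)
      (q : Fin 4 → F), ‖σ w - w₀‖ < δ →
      (∀ j, ‖σ (q j) - q₀ j‖ < δ) → ∀ t Y : M, t ≠ 0 → ‖t‖ < δ → ‖Y - w₀‖ < δ →
      Y ^ 2 = σ w ^ 2 + σ (q 0) * t + σ (q 1) * t ^ 2 + σ (q 2) * t ^ 3 + σ (q 3) * t ^ 4 →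
      ∃ x y : M, y ^ 2 = x ^ 3 + σ (q 1) * x ^ 2 +
        rb (σ w) (σ (q 0)) (σ (q 2)) (σ (q 3)) * x +
        rc (σ w) (σ (q 0)) (σ (q 1)) (σ (q 2)) (σ (q 3)) ∧ x ≠ 0 ∧ y ≠ 0 ∧ ‖x / y‖ ≤ r ∧ ‖1 / y‖ ≤ ρ ∧
        Df (σ w) (σ (q 0)) (σ (q 2)) x y ≠ 0 ∧
        t = tf (σ w) (σ (q 0)) (σ (q 1)) (σ (q 2)) x y ∧
        Y = Yf (σ w) (σ (q 0)) (σ (q 1)) (σ (q 2)) x y := by
  obtain ⟨δ, hδ, h⟩ := convL (RingHom.id M) (w₀ := w₀) (q₀ := q₀) hw hr hρ
  refine ⟨δ, hδ, fun F _ _ σ w q h1 h2 t Y h3 h4 h5 h6 => ?_⟩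
  exact (h (σ w) (fun j => σ (q j)) h1 h2 t Y h3 h4 h5 h6).2

end ev

end Pool.Agent.L5helper15.KU
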