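import Pool.Agent.L5helper15.KU.U1

/-! Rational points of a genus one curve close to a local point, uniformly in the curve and in the
field -/

set_option autoImplicit false
set_option linter.unusedVariables false
set_option linter.unusedSectionVars false

open WeierstrassCurve Filter Topology

namespace Pool.Agent.L5helper15.KU

open Pool.Agent.Y720.MZ

section main

variable {ι : Type} [Fintype ι] {p : ι → ℕ} [hp : ∀ i, Fact (p i).Prime]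
  {θ₀ : ∀ i, ℚ_[p i] × (Fin 4 → ℚ_[p i])} {θ' : ℝ × (Fin 4 → ℝ)}

/-- **Rational points of a genus one curve close to a local point, uniformly in the field.** -/
theorem lemU [Nonempty ι] (hinj : Function.Injective p) (hw : ∀ i, (θ₀ i).1 ≠ 0) (hwr : θ'.1 ≠ 0)
    (hio : ∀ i, IOt (θ₀ i)) (hio' : IOt θ') :
    ∃ δ : ℝ, 0 < δ ∧ ∀ (F : Type) [Field F] [CharZero F] (σ : ∀ i, F →+* ℚ_[p i]) (τ : F →+* ℝ)
      (θ : F × (Fin 4 → F)), (∀ i, ‖σ i θ.1 - (θ₀ i).1‖ < δ) →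
      (∀ i j, ‖σ i (θ.2 j) - (θ₀ i).2 j‖ < δ) → |τ θ.1 - θ'.1| < δ →
      (∀ j, |τ (θ.2 j) - θ'.2 j| < δ) →
      ∀ (t Y : ∀ i, ℚ_[p i]) (t' Y' : ℝ), (∀ i, ‖t i‖ < δ) → (∀ i, ‖Y i - (θ₀ i).1‖ < δ) →
      |t'| < δ → |Y' - θ'.1| < δ →
      (∀ i, Y i ^ 2 = qv (σ i θ.1) (fun j => σ i (θ.2 j)) (t i)) →
      Y' ^ 2 = qv (τ θ.1) (fun j => τ (θ.2 j)) t' → ∀ η : ℝ, 0 < η →
      ∃ s Z : F, Z ^ 2 = qv θ.1 θ.2 s ∧ (∀ i, ‖σ i s - t i‖ < η ∧ ‖σ i Z - Y i‖ < η) ∧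
        |τ s - t'| < η ∧ |τ Z - Y'| < η := by
  let : ∀ i, DecidableEq ℚ_[p i] := fun i => Classical.decEq _
  let : DecidableEq ℝ := Classical.decEq _
  have hD := fun i => (hio i).1
  have hD' := hio'.1
  have hS : ∀ i, ∀ h, ∀ n : ℕ, n ≠ 0 → n • (.some (tX (θ₀ i)) (tY (θ₀ i)) h :
      Pt (tA (θ₀ i)) (tB (θ₀ i)) (tC (θ₀ i))) ≠ 0 := fun i => (hio i).2
  have hS' : ∀ h, ∀ n : ℕ, n ≠ 0 → n • (.some (tX θ') (tY θ') h :
      Pt (tA θ') (tB θ') (tC θ')) ≠ 0 := hio'.2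
  have hns := fun i => tns (hw i) (hD i)
  have hns' := tns hwr hD'
  have hinf := fun i => hS i (hns i)
  have hinf' := hS' hns'
  obtain ⟨N, hN, hNp, hNr⟩ := near_allL hD hD' hinf hinf'
    (r := fun i => min (1 / (100 * CL (θ₀ i))) ‖(p i : ℚ_[p i])‖)
    (fun i => lt_min (Bd_baseL (θ₀ i)).hρ norm_p_pos) (fun i => min_le_left _ _)
    (r' := 1 / (100 * CL θ') / 6) (div_pos (Bd_baseL θ').hρ (by norm_num))
  set S₀ : ∀ i, Pt (tA (θ₀ i)) (tB (θ₀ i)) (tC (θ₀ i)) := fun i => .some _ _ (hns i) with hS₀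
  set r : ι → ℝ := fun i => av (RingHom.id _) (TT (N • S₀ i)) with hr
  have hrm : ∀ i, r i ≤ min (1 / (100 * CL (θ₀ i))) ‖(p i : ℚ_[p i])‖ := fun i => (hNp i).le
  have hr1 : ∀ i, r i ≤ 1 / (100 * CL (θ₀ i)) := fun i => (hrm i).trans (min_le_left _ _)
  have hrp : ∀ i, r i ≤ ‖(p i : ℚ_[p i])‖ := fun i => (hrm i).trans (min_le_right _ _)
  have hr0 : ∀ i, 0 < r i := fun i => (av (RingHom.id _)).pos
    (TT_ne (Bd_baseL (θ₀ i)) (min_le_left _ _) (hNp i) (hinf i N hN))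
  choose δe hδe hev using fun i => ev_pU (hw i) (hD i) (hns i) (hinf i) hN (min_le_left _ _) (hNp i)
  obtain ⟨δf, hδf, hevr⟩ := ev_rU hwr hD' hns' hinf' hN hNr
  obtain ⟨δ₁', hδ₁', hδ₁p⟩ := fin_min hδe
  set δ₁ := min δ₁' δf with hδ₁def
  have hδ₁ : 0 < δ₁ := lt_min hδ₁' hδf
  choose δp hδp hcp using fun i => convU (w₀ := (θ₀ i).1) (q₀ := (θ₀ i).2) (hw i) (hr0 i)
    (Bd_baseL (θ₀ i)).hρ
  obtain ⟨δr, hδr, hcr⟩ := convU (w₀ := θ'.1) (q₀ := θ'.2) hwr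
    (div_pos (Bd_baseL θ').hρ (by norm_num : (0 : ℝ) < 12)) (Bd_baseL θ').hρ
  obtain ⟨δ₂, hδ₂, hδ₂p⟩ := fin_min hδp
  obtain ⟨δ₃, hδ₃, hδ₃p⟩ := fin_min (f := fun i => ‖(θ₀ i).1‖) fun i =>
    norm_pos_iff.2 (hw i)
  have hw' : 0 < |θ'.1| := abs_pos.2 hwr
  set δ := min (min δ₁ δ₂) (min δ₃ (min δr |θ'.1|)) with hδ
  have d1 : δ ≤ δ₁ := (min_le_left _ _).trans (min_le_left _ _)
  have d2 : δ ≤ δ₂ := (min_le_left _ _).trans (min_le_right _ _)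
  have d3 : δ ≤ δ₃ := (min_le_right _ _).trans (min_le_left _ _)
  have d4 : δ ≤ δr := (min_le_right _ _).trans ((min_le_right _ _).trans (min_le_left _ _))
  have d5 : δ ≤ |θ'.1| := (min_le_right _ _).trans ((min_le_right _ _).trans (min_le_right _ _))
  refine ⟨δ, lt_min (lt_min hδ₁ hδ₂) (lt_min hδ₃ (lt_min hδr hw')), ?_⟩
  intro F _ _ σ τ θ h1 h2 h3 h4 t Y t' Y' ht hY ht' hY' he he' η hη
  let : DecidableEq F := Classical.decEq F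
  have hg := fun i => hev i F (σ i) θ ((h1 i).trans_le (d1.trans ((min_le_left _ _).trans (hδ₁p i))))
    (fun j => (h2 i j).trans_le (d1.trans ((min_le_left _ _).trans (hδ₁p i))))
  have g1 : θ.1 ≠ 0 := by
    obtain ⟨i⟩ := ‹Nonempty ι›
    exact (hg i).1
  have g2 : dsc (tA θ) (tB θ) (tC θ) ≠ 0 := by
    obtain ⟨i⟩ := ‹Nonempty ι›
    exact (hg i).2.1
  have g3 := fun i => (hg i).2.2.1
  have g5 := fun i => (hg i).2.2.2
  obtain ⟨g4, g6⟩ := hevr F τ θ (h3.trans_le (d1.trans (min_le_right _ _)))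
    (fun j => (h4 j).trans_le (d1.trans (min_le_right _ _)))
  have hnsθ := tns g1 g2
  -- the targets are moved away from zero
  have hp1 : ∀ i, ∃ s Z : ℚ_[p i], s ≠ 0 ∧ ‖s‖ < δ ∧ ‖Z - (θ₀ i).1‖ < δ ∧ ‖s - t i‖ < η / 2 ∧
      ‖Z - Y i‖ < η / 2 ∧ Z ^ 2 = qv (σ i θ.1) (fun j => σ i (θ.2 j)) s := by
    intro i
    have hYne : Y i ≠ 0 := by
      intro h0
      have := hY i
      rw [h0, zero_sub, norm_neg] at this
      exact absurd (this.trans_le (d3.trans (hδ₃p i))) (lt_irrefl _)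
    obtain ⟨s, Z, k1, k2, k3, k4⟩ := perturb (g := qv (σ i θ.1) (fun j => σ i (θ.2 j)))
      (by unfold qv; fun_prop) (he i) hYne
      (η := min (η / 2) (min (δ - ‖t i‖) (δ - ‖Y i - (θ₀ i).1‖)))
      (lt_min (half_pos hη) (lt_min (sub_pos.2 (ht i)) (sub_pos.2 (hY i))))
    have k5 := k2.trans_le (min_le_left _ _)
    have k6 := k3.trans_le (min_le_left _ _)
    have k7 := k2.trans_le ((min_le_right _ _).trans (min_le_left _ _))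
    have k8 := k3.trans_le ((min_le_right _ _).trans (min_le_right _ _))
    refine ⟨s, Z, k1, ?_, ?_, k5, k6, k4⟩
    · have : ‖s‖ ≤ ‖s - t i‖ + ‖t i‖ := by
        have := norm_add_le (s - t i) (t i)
        rwa [sub_add_cancel] at this
      linarith
    · have : ‖Z - (θ₀ i).1‖ ≤ ‖Z - Y i‖ + ‖Y i - (θ₀ i).1‖ := by
        have := norm_add_le (Z - Y i) (Y i - (θ₀ i).1)
        rwa [sub_add_sub_cancel] at this
      linarith
  obtain ⟨s', Z', m1, m2, m3, m4, m5, m6⟩ : ∃ s Z : ℝ, s ≠ 0 ∧ |s| < δ ∧ |Z - θ'.1| < δ ∧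
      |s - t'| < η / 2 ∧ |Z - Y'| < η / 2 ∧ Z ^ 2 = qv (τ θ.1) (fun j => τ (θ.2 j)) s := by
    have hYne : Y' ≠ 0 := by
      intro h0
      have := hY'
      rw [h0, zero_sub, abs_neg] at this
      exact absurd (this.trans_le d5) (lt_irrefl _)
    obtain ⟨s, Z, k1, k2, k3, k4⟩ := perturb (g := qv (τ θ.1) (fun j => τ (θ.2 j)))
      (by unfold qv; fun_prop) he' hYne
      (η := min (η / 2) (min (δ - |t'|) (δ - |Y' - θ'.1|)))
      (lt_min (half_pos hη) (lt_min (sub_pos.2 ht') (sub_pos.2 hY')))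
    rw [Real.norm_eq_abs] at k2 k3
    have k5 := k2.trans_le (min_le_left _ _)
    have k6 := k3.trans_le (min_le_left _ _)
    have k7 := k2.trans_le ((min_le_right _ _).trans (min_le_left _ _))
    have k8 := k3.trans_le ((min_le_right _ _).trans (min_le_right _ _))
    refine ⟨s, Z, k1, ?_, ?_, k5, k6, k4⟩
    · have : |s| ≤ |s - t'| + |t'| := by
        have := abs_add_le (s - t') t'
        rwa [sub_add_cancel] at this
      linarith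
    · have : |Z - θ'.1| ≤ |Z - Y'| + |Y' - θ'.1| := by
        have := abs_add_le (Z - Y') (Y' - θ'.1)
        rwa [sub_add_sub_cancel] at this
      linarith
  choose s Z n1 n2 n3 n4 n5 n6 using hp1
  -- the points of the resolvents
  have hx1 : ∀ i, ∃ x y : ℚ_[p i], y ^ 2 = x ^ 3 + σ i (θ.2 1) * x ^ 2 +
      rb (σ i θ.1) (σ i (θ.2 0)) (σ i (θ.2 2)) (σ i (θ.2 3)) * x +
      rc (σ i θ.1) (σ i (θ.2 0)) (σ i (θ.2 1)) (σ i (θ.2 2)) (σ i (θ.2 3)) ∧ x ≠ 0 ∧ y ≠ 0 ∧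
      ‖x / y‖ ≤ r i ∧ ‖1 / y‖ ≤ 1 / (100 * CL (θ₀ i)) ∧
      Df (σ i θ.1) (σ i (θ.2 0)) (σ i (θ.2 2)) x y ≠ 0 ∧
      s i = tf (σ i θ.1) (σ i (θ.2 0)) (σ i (θ.2 1)) (σ i (θ.2 2)) x y ∧
      Z i = Yf (σ i θ.1) (σ i (θ.2 0)) (σ i (θ.2 1)) (σ i (θ.2 2)) x y := fun i =>
    hcp i F (σ i) θ.1 θ.2 ((h1 i).trans_le (d2.trans (hδ₂p i)))
      (fun j => (h2 i j).trans_le (d2.trans (hδ₂p i))) (s i) (Z i) (n1 i)
      ((n2 i).trans_le (d2.trans (hδ₂p i))) ((n3 i).trans_le (d2.trans (hδ₂p i))) (n6 i)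
  choose x y c1 c0 c2 c3 c4 c5 c6 c7 using hx1
  obtain ⟨x', y', b1, b0, b2, b3, b4, b5, b6, b7⟩ := hcr F τ θ.1 θ.2 (h3.trans_le d4)
    (fun j => (h4 j).trans_le d4) s' Z' m1 (m2.trans_le d4) (m3.trans_le d4) m6
  choose ηp hηp hcc using fun i => conv_cont (σ i) (w := θ.1) (q₁ := θ.2 0) (q₂ := θ.2 1)
    (q₃ := θ.2 2) (q₄ := θ.2 3) (g3 i) g1 (c1 i) (c2 i) ((c3 i).trans (hr1 i)) (c4 i) (c5 i)
    (half_pos hη)
  have hρ' := (Bd_baseL θ').hρ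
  obtain ⟨ηr, hηr, hccr⟩ := conv_cont τ (w := θ.1) (q₁ := θ.2 0) (q₂ := θ.2 1)
    (q₃ := θ.2 2) (q₄ := θ.2 3) g4 g1 b1 b2 (b3.trans (by linarith)) b4 b5 (half_pos hη)
  obtain ⟨η₁, hη₁, hη₁p⟩ := fin_min hηp
  have hxy' : 0 < |x' / y'| := abs_pos.2 (div_ne_zero b0 b2)
  set ηη := min η₁ (min ηr |x' / y'|) with hηη
  have hηη0 : 0 < ηη := lt_min hη₁ (lt_min hηr hxy')
  -- the multiple
  set R := N • (.some _ _ hnsθ : Pt (tA θ) (tB θ) (tC θ)) with hR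
  have hRi : ∀ n : ℕ, n ≠ 0 → n • R ≠ 0 := by
    obtain ⟨i⟩ := ‹Nonempty ι›
    exact U7 (g3 i) (hr1 i) (hr0 i) (hrp i) (g5 i hnsθ).1 (g5 i hnsθ).2
  obtain ⟨n, hn1, hn2, hn3⟩ := fill_all (σ := σ) (τ := τ) hinj g2 g3 g4 hRi hr0 hr1 hrp
    (fun i => (g5 i hnsθ).1) (fun i => (g5 i hnsθ).2) (g6 hnsθ) (fun i => x i / y i) c3 (x' / y')
    (by rw [← Real.norm_eq_abs]; exact b3) hηη0
  have hTT : TT (n • R) ≠ 0 := by
    intro h0
    rw [h0, map_zero, zero_sub, abs_neg] at hn3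
    exact absurd (hn3.trans_le ((min_le_right _ _).trans (min_le_right _ _))) (lt_irrefl _)
  revert hn1 hn2 hn3 hTT
  generalize n • R = Q
  intro hn1 hn2 hn3 hTT
  rcases Q with _ | ⟨X, W, hQ⟩
  · exact absurd rfl hTT
  have hXW := (cv_ns.1 hQ).1
  simp only [TT_some] at hn1 hn3
  obtain ⟨hW, -, -⟩ := (Nb_some hQ).1 hn2
  have hA : ∀ i, _ := fun i => hcc i X W hXW hW
    (((Nb_some hQ).1 (hn1 i).1).2.1.trans (hr1 i)) ((Nb_some hQ).1 (hn1 i).1).2.2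
    ((hn1 i).2.trans_le ((min_le_left _ _).trans (hη₁p i)))
  obtain ⟨hB1, hB2, hB3⟩ := hccr X W hXW hW
    (((Nb_some hQ).1 hn2).2.1.trans (by linarith)) ((Nb_some hQ).1 hn2).2.2
    (hn3.trans_le ((min_le_right _ _).trans (min_le_left _ _)))
  refine ⟨tf θ.1 (θ.2 0) (θ.2 1) (θ.2 2) X W, Yf θ.1 (θ.2 0) (θ.2 1) (θ.2 2) X W,
    Yf_eqn g1 hXW hB1, fun i => ⟨?_, ?_⟩, ?_, ?_⟩
  · obtain ⟨-, a2, a3⟩ := hA i
    rw [← c6 i] at a2
    have := norm_sub_le_norm_sub_add_norm_sub (σ i (tf θ.1 (θ.2 0) (θ.2 1) (θ.2 2) X W)) (s i) (t i)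
    have := n4 i
    linarith
  · obtain ⟨-, a2, a3⟩ := hA i
    rw [← c7 i] at a3
    have := norm_sub_le_norm_sub_add_norm_sub (σ i (Yf θ.1 (θ.2 0) (θ.2 1) (θ.2 2) X W)) (Z i) (Y i)
    have := n5 i
    linarith
  · rw [← b6, Real.norm_eq_abs] at hB2
    have := abs_sub_le (τ (tf θ.1 (θ.2 0) (θ.2 1) (θ.2 2) X W)) s' t'
    linarith
  · rw [← b7, Real.norm_eq_abs] at hB3
    have := abs_sub_le (τ (Yf θ.1 (θ.2 0) (θ.2 1) (θ.2 2) X W)) Z' Y'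
    linarith

end main

end Pool.Agent.L5helper15.KU
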