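import Pool.Agent.L5helper15.KU.U2

/-! Moves close to a local point, uniformly in the field of definition -/

set_option autoImplicit false
set_option linter.unusedVariables false
set_option linter.unusedSectionVars false

open Filter Topology

namespace Pool.Agent.L5helper15.KU

open MvPolynomial Pool.Agent.Y720.MZ Pool.Agent.L5helper15.KD

section

variable {V : Type} [Finite V] [Nonempty V] {L : V → Type} [∀ v, NontriviallyNormedField (L v)]
  [∀ v, CompleteSpace (L v)] [∀ v, CharZero (L v)] {m : ℕ}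

/-- rational points on the quartics close to a given local one are dense close to the base point -/
def WAqU (θ₀ : ∀ v, L v × (Fin 4 → L v)) : Prop :=
  ∃ δ : ℝ, 0 < δ ∧ ∀ (F : Type) [Field F] [CharZero F] (s : ∀ v, F →+* L v) (θ : F × (Fin 4 → F)),
    (∀ v, ‖s v θ.1 - (θ₀ v).1‖ < δ) →
    (∀ v j, ‖s v (θ.2 j) - (θ₀ v).2 j‖ < δ) → ∀ t Y : ∀ v, L v, (∀ v, ‖t v‖ < δ) →
    (∀ v, ‖Y v - (θ₀ v).1‖ < δ) → (∀ v, Y v ^ 2 = qv (s v θ.1) (fun j => s v (θ.2 j)) (t v)) →
    ∀ η : ℝ, 0 < η → ∃ u Z : F, Z ^ 2 = qv θ.1 θ.2 u ∧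
      ∀ v, ‖s v u - t v‖ < η ∧ ‖s v Z - Y v‖ < η

/-- moves in the direction of a coordinate close to a local point -/
def MvU (g : ∀ v, MvPolynomial (Fin m) (L v)) (j : Fin m) (x₀ : ∀ v, Fin m → L v)
    (y₀ : ∀ v, L v) : Prop :=
  ∃ δ : ℝ, 0 < δ ∧ ∀ (F : Type) [Field F] [CharZero F] (s : ∀ v, F →+* L v)
    (f : MvPolynomial (Fin m) F), (∀ k, f.degreeOf k ≤ 4) → (∀ v, map (s v) f = g v) →
    ∀ (z : Fin m → F) (w : F), onX f z w → nr s δ z w x₀ y₀ →
    ∀ t Y : ∀ v, L v, (∀ v, ‖t v‖ < δ) → (∀ v, ‖Y v - y₀ v‖ < δ) →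
    (∀ v, onX (g v) (fun a => s v (z a) + t v * (Pi.single j 1 : Fin m → L v) a) (Y v)) →
    ∀ η : ℝ, 0 < η → ∃ (z' : Fin m → F) (w' : F), onX f z' w' ∧
      nr s η z' w' (fun v a => s v (z a) + t v * (Pi.single j 1 : Fin m → L v) a) Y

/-- the closure of the rational points is open at a local point, if it belongs to it -/
def IntU (g : ∀ v, MvPolynomial (Fin m) (L v)) (x₀ : ∀ v, Fin m → L v) (y₀ : ∀ v, L v) : Prop :=
  ∃ ε : ℝ, 0 < ε ∧ ∀ (F : Type) [Field F] [CharZero F] (s : ∀ v, F →+* L v)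
    (f : MvPolynomial (Fin m) F), (∀ k, f.degreeOf k ≤ 4) → (∀ v, map (s v) f = g v) →
    ∀ (z : Fin m → F) (w : F), onX f z w → nr s ε z w x₀ y₀ →
    ∀ (x : ∀ v, Fin m → L v) (y : ∀ v, L v), (∀ v, onX (g v) (x v) (y v)) →
    (∀ v, (∀ a, ‖x v a - x₀ v a‖ < ε) ∧ ‖y v - y₀ v‖ < ε) →
    ∀ η : ℝ, 0 < η → ∃ (z : Fin m → F) (w : F), onX f z w ∧ nr s η z w x y

lemma single_s {F M : Type} [Field F] [Field M] (s : F →+* M) (j : Fin m) :
    (fun a => s ((Pi.single j 1 : Fin m → F) a)) = Pi.single j 1 := by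
  funext a
  by_cases h : a = j
  · subst h; simp
  · rw [Pi.single_eq_of_ne h, Pi.single_eq_of_ne h, map_zero]

omit [Nonempty V] in
/-- continuity of the coefficients -/
lemma cq_nearU (g : ∀ v, MvPolynomial (Fin m) (L v)) (j : Fin m) (x₀ : ∀ v, Fin m → L v) {δ : ℝ}
    (hδ : 0 < δ) :
    ∃ δ' : ℝ, 0 < δ' ∧ ∀ (F : Type) [Field F] [CharZero F] (s : ∀ v, F →+* L v)
      (f : MvPolynomial (Fin m) F), (∀ v, map (s v) f = g v) →
      ∀ z : Fin m → F, (∀ v a, ‖s v (z a) - x₀ v a‖ < δ') →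
      ∀ v i, ‖s v (cq f z (Pi.single j 1) i) - cq (g v) (x₀ v) (Pi.single j 1) i‖ < δ := by
  have h0 : ∀ v : V, ∃ ρ : ℝ, 0 < ρ ∧ ∀ z : Fin m → L v, (∀ a, ‖z a - x₀ v a‖ < ρ) →
      ∀ i, ‖cq (g v) z (Pi.single j 1) i - cq (g v) (x₀ v) (Pi.single j 1) i‖ < δ := by
    intro v
    have h2 : ∀ᶠ x in 𝓝 (x₀ v), ∀ i : Fin 4,
        ‖cq (g v) x (Pi.single j 1) i - cq (g v) (x₀ v) (Pi.single j 1) i‖ < δ := by
      rw [Filter.eventually_all]
      intro i
      have h3 : Tendsto (fun x => ‖cq (g v) x (Pi.single j 1) i -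
          cq (g v) (x₀ v) (Pi.single j 1) i‖) (𝓝 (x₀ v)) (𝓝 0) := by
        have h4 : Continuous fun x => cq (g v) x (Pi.single j 1) i :=
          rst_coeff_cont (g v) (Pi.single j 1) ((i : ℕ) + 1)
        have := ((h4.tendsto (x₀ v)).sub_const (cq (g v) (x₀ v) (Pi.single j 1) i)).norm
        rwa [sub_self, norm_zero] at this
      exact h3.eventually_lt_const hδ
    obtain ⟨ρ, hρ, hb⟩ := Metric.eventually_nhds_iff_ball.1 h2
    refine ⟨ρ, hρ, fun z hz i => hb z (by
      rw [Metric.mem_ball, dist_pi_lt_iff hρ]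
      intro a
      rw [dist_eq_norm]
      exact hz a) i⟩
  choose ρ hρ hb using h0
  obtain ⟨δ', hδ', hm⟩ := fin_min hρ
  refine ⟨δ', hδ', fun F _ _ s f hf z hz v i => ?_⟩
  have h1 : s v (cq f z (Pi.single j 1) i) = cq (g v) (fun a => s v (z a)) (Pi.single j 1) i := by
    simp only [cq]
    rw [← Polynomial.coeff_map, rst_map, hf v, single_s]
  rw [h1]
  exact hb v _ (fun a => (hz v a).trans_le (hm v)) i

omit [Nonempty V] in
/-- **Moves from the quartics.** -/
theorem mv_quarticU {g : ∀ v, MvPolynomial (Fin m) (L v)} {j : Fin m} {x₀ : ∀ v, Fin m → L v}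
    {y₀ : ∀ v, L v} (hW : WAqU fun v => (y₀ v, cq (g v) (x₀ v) (Pi.single j 1))) :
    MvU g j x₀ y₀ := by
  obtain ⟨δ, hδ, hb⟩ := hW
  obtain ⟨δ', hδ', hc⟩ := cq_nearU g j x₀ hδ
  refine ⟨min δ δ', lt_min hδ hδ', fun F _ _ s f hd hf z w hzw hn t Y ht hY hYe η hη => ?_⟩
  have he : ∀ z, (rst f z (Pi.single j 1)).natDegree ≤ 4 := fun z => deg_rst (hd j) z
  have k1 : ∀ v, Y v ^ 2 = qv (s v w) (fun i => s v (cq f z (Pi.single j 1) i)) (t v) := by
    intro v
    have h1 := hYe v
    have h2 : (rst (map (s v) f) (fun a => s v (z a)) (Pi.single j 1)).natDegree ≤ 4 :=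
      deg_rst (degreeOf_map_le (s v) (hd j)) _
    have h3 := cq_eval h2 (onX_map (s := s) hzw v) (t v)
    have h4 : (fun i => s v (cq f z (Pi.single j 1) i)) = cq (map (s v) f) (fun a => s v (z a))
        (Pi.single j 1) := by
      funext i
      simp only [cq]
      rw [← Polynomial.coeff_map, rst_map, single_s]
    unfold onX at h1
    rw [h1, h4, h3, hf v]
  obtain ⟨u, Z, g1, g2⟩ := hb F s (w, cq f z (Pi.single j 1))
    (fun v => (hn v).2.trans_le (min_le_left _ _))
    (hc F s f hf z fun v a => ((hn v).1 a).trans_le (min_le_right _ _)) t Y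
    (fun v => (ht v).trans_le (min_le_left _ _)) (fun v => (hY v).trans_le (min_le_left _ _))
    k1 η hη
  refine ⟨fun a => z a + u * (Pi.single j 1 : Fin m → F) a, Z, ?_,
    fun v => ⟨fun a => ?_, (g2 v).2⟩⟩
  · unfold onX
    rw [g1, cq_eval (he z) hzw]
  · have e1 : s v (z a + u * (Pi.single j 1 : Fin m → F) a) -
        (s v (z a) + t v * (Pi.single j 1 : Fin m → L v) a) =
        (s v u - t v) * (Pi.single j 1 : Fin m → L v) a := by
      rw [map_add, map_mul, congrFun (single_s (s v) j) a]; ring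
    rw [e1]
    by_cases h : a = j
    · subst h
      rw [Pi.single_eq_same, mul_one]
      exact (g2 v).1
    · rw [Pi.single_eq_of_ne h, mul_zero, norm_zero]
      exact hη

/-- **Assembly.** -/
theorem int_of_mvU {g : ∀ v, MvPolynomial (Fin m) (L v)} {x₀ : ∀ v, Fin m → L v} {y₀ : ∀ v, L v}
    (hP : ∀ v, onX (g v) (x₀ v) (y₀ v)) (hw : ∀ v, y₀ v ≠ 0)
    (hM : ∀ a, MvU g a x₀ y₀) : IntU g x₀ y₀ := by
  classical
  have hw' : ∀ v, 0 < ‖y₀ v‖ := fun v => norm_pos_iff.2 (hw v)
  have hw2 : ∀ v, 0 < ‖2 * y₀ v‖ := fun v => norm_pos_iff.2 (mul_ne_zero two_ne_zero (hw v))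
  have hV : Nonempty V := inferInstance
  have claim : ∀ S : Finset (Fin m), ∃ ε : ℝ, 0 < ε ∧ ∀ (F : Type) [Field F] [CharZero F]
      (s : ∀ v, F →+* L v) (f : MvPolynomial (Fin m) F), (∀ k, f.degreeOf k ≤ 4) →
      (∀ v, map (s v) f = g v) → ∀ (z : Fin m → F) (w : F), onX f z w →
      nr s ε z w x₀ y₀ →
      ∀ (x : ∀ v, Fin m → L v) (y : ∀ v, L v),
      (∀ v, onX (g v) (x v) (y v)) →
      (∀ v, (∀ a, ‖x v a - x₀ v a‖ < ε) ∧ ‖y v - y₀ v‖ < ε) →
      (∀ v, ∀ a ∉ S, x v a = s v (z a)) → ∀ η : ℝ, 0 < η →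
      ∃ (z' : Fin m → F) (w' : F), onX f z' w' ∧ nr s η z' w' x y := by
    intro S
    induction S using Finset.induction_on with
    | empty =>
      obtain ⟨ε, hε, hm⟩ := fin_min (f := fun v : V => ‖2 * y₀ v‖ / 2) fun v => half_pos (hw2 v)
      refine ⟨ε, hε, fun F _ _ s f hd hf z w hzw hn x y hxy hT hx η hη => ⟨z, w, hzw, fun v => ?_⟩⟩
      have h1 : x v = fun a => s v (z a) := by
        funext a
        exact hx v a (Finset.notMem_empty a)
      have h2 := hxy v
      rw [h1, ← hf v] at h2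
      have h3 : y v ^ 2 = s v w ^ 2 := h2.trans (onX_map (s := s) hzw v).symm
      have h4 : (y v - s v w) * (y v + s v w) = 0 := by linear_combination h3
      have h5 : y v + s v w ≠ 0 := by
        intro h0
        have h6 : 2 * y₀ v = -(y v - y₀ v) + -(s v w - y₀ v) := by
          linear_combination h0
        have h7 := norm_add_le (-(y v - y₀ v)) (-(s v w - y₀ v))
        rw [← h6, norm_neg, norm_neg] at h7
        have h8 := (hT v).2
        have h9 := (hn v).2
        have := hm v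
        linarith
      have h6 : y v = s v w := sub_eq_zero.1 ((mul_eq_zero.1 h4).resolve_right h5)
      refine ⟨fun a => ?_, ?_⟩
      · rw [h1, sub_self, norm_zero]; exact hη
      · rw [h6, sub_self, norm_zero]; exact hη
    | insert a S ha ih =>
      obtain ⟨ε', hε', hcl⟩ := ih
      obtain ⟨δ, hδ, hmv⟩ := hM a
      have hsq : ∀ v, ∃ ρ : ℝ, 0 < ρ ∧ ∀ x' : Fin m → L v, (∀ a, ‖x' a - x₀ v a‖ < ρ) →
          ∃ y' : L v, ‖y' - y₀ v‖ < min δ (ε' / 2) ∧ onX (g v) x' y' := by
        intro v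
        exact sq_near (hP v) (hw v) (lt_min hδ (half_pos hε'))
      choose ρ hρ hρb using hsq
      obtain ⟨ε, hε, hm⟩ := fin_min (f := fun v : V => min (min (ε' / 2) (δ / 2))
        (min (ρ v) (‖y₀ v‖))) fun v => lt_min (lt_min (half_pos hε') (half_pos hδ))
          (lt_min (hρ v) (hw' v))
      have hε1 : ε ≤ ε' / 2 := by
        obtain ⟨v⟩ := hV
        exact (hm v).trans ((min_le_left _ _).trans (min_le_left _ _))
      have hε2 : ε ≤ δ / 2 := by
        obtain ⟨v⟩ := hV
        exact (hm v).trans ((min_le_left _ _).trans (min_le_right _ _))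
      have hε3 : ∀ v, ε ≤ ρ v := fun v => (hm v).trans ((min_le_right _ _).trans (min_le_left _ _))
      have hε4 : ∀ v, ε ≤ ‖y₀ v‖ := fun v =>
        (hm v).trans ((min_le_right _ _).trans (min_le_right _ _))
      refine ⟨ε, hε, fun F _ _ s f hd hf z w hzw hn x y hxy hT hx η hη => ?_⟩
      -- the first target
      obtain ⟨t, ht⟩ : ∃ t : ∀ v, L v, t = fun v => x v a - s v (z a) := ⟨_, rfl⟩
      obtain ⟨x₁, hx₁⟩ : ∃ x₁ : ∀ v, Fin m → L v,
        x₁ = fun v b => s v (z b) + t v * (Pi.single a 1 : Fin m → L v) b := ⟨_, rfl⟩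
      have hx₁a : ∀ v, x₁ v a = x v a := by
        intro v
        simp only [hx₁, ht, Pi.single_eq_same, mul_one]
        ring
      have hx₁b : ∀ v b, b ≠ a → x₁ v b = s v (z b) := by
        intro v b hb
        simp only [hx₁, Pi.single_eq_of_ne hb, mul_zero, add_zero]
      have hx₁P : ∀ v b, ‖x₁ v b - x₀ v b‖ < ε := by
        intro v b
        by_cases hb : b = a
        · rw [hb, hx₁a]; exact (hT v).1 a
        · rw [hx₁b v b hb]; exact (hn v).1 b
      have hx₁S : ∀ v b, b ∉ S → x₁ v b = x v b := by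
        intro v b hb
        by_cases hba : b = a
        · rw [hba, hx₁a]
        · rw [hx₁b v b hba, hx v b]
          rw [Finset.mem_insert, not_or]
          exact ⟨hba, hb⟩
      choose Y hY1 hY2 using fun v => hρb v (x₁ v) fun b => (hx₁P v b).trans_le (hε3 v)
      -- the second target
      have hsq' : ∀ v, ∃ ρ : ℝ, 0 < ρ ∧ ∀ x' : Fin m → L v, (∀ a, ‖x' a - x v a‖ < ρ) →
          ∃ y' : L v, ‖y' - y v‖ < min (η / 2) (ε' / 2) ∧
            onX (g v) x' y' := by
        intro v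
        refine sq_near (hxy v) ?_ (lt_min (half_pos hη) (half_pos hε'))
        intro h0
        have h1 := (hT v).2
        rw [h0, zero_sub, norm_neg] at h1
        exact absurd h1 (not_lt.2 (hε4 v))
      choose ρ' hρ' hρb' using hsq'
      obtain ⟨η₁, hη₁, hm₁⟩ := fin_min (f := fun v : V => min (min (ε' / 2) (η / 2)) (ρ' v))
        fun v => lt_min (lt_min (half_pos hε') (half_pos hη)) (hρ' v)
      have g1 : η₁ ≤ ε' / 2 := by
        obtain ⟨v⟩ := hV
        exact (hm₁ v).trans ((min_le_left _ _).trans (min_le_left _ _))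
      have g2 : η₁ ≤ η / 2 := by
        obtain ⟨v⟩ := hV
        exact (hm₁ v).trans ((min_le_left _ _).trans (min_le_right _ _))
      have g3 : ∀ v, η₁ ≤ ρ' v := fun v => (hm₁ v).trans (min_le_right _ _)
      have hx₁' : (fun (v : V) (b : Fin m) => s v (z b) + t v * (Pi.single a 1 : Fin m → L v) b) = x₁ :=
        hx₁.symm
      obtain ⟨z₁, w₁, hzw₁, hn₁⟩ := hmv F s f hd hf z w hzw (hn.mono (hε2.trans (by linarith))) t Y
        (fun v => by
          have h1 := (hT v).1 a
          have h2 := (hn v).1 a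
          have h3 : t v = (x v a - x₀ v a) + -(s v (z a) - x₀ v a) := by
            simp only [ht]; ring
          have h4 := norm_add_le (x v a - x₀ v a) (-(s v (z a) - x₀ v a))
          rw [← h3, norm_neg] at h4
          linarith)
        (fun v => (hY1 v).trans_le (min_le_left _ _))
        (fun v => by
          have := congrFun hx₁' v
          rw [this]
          exact hY2 v) η₁ hη₁
      rw [hx₁'] at hn₁
      obtain ⟨x', hx'⟩ : ∃ x' : ∀ v, Fin m → L v,
        x' = fun v b => if b ∈ S then x v b else s v (z₁ b) := ⟨_, rfl⟩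
      have hx'x : ∀ v b, ‖x' v b - x v b‖ < η₁ := by
        intro v b
        simp only [hx']
        by_cases hb : b ∈ S
        · rw [if_pos hb, sub_self, norm_zero]; exact hη₁
        · rw [if_neg hb, ← hx₁S v b hb]
          exact (hn₁ v).1 b
      choose y' hy1 hy2 using fun v => hρb' v (x' v) fun b => (hx'x v b).trans_le (g3 v)
      obtain ⟨z', w', h1, h2⟩ := hcl F s f hd hf z₁ w₁ hzw₁ (fun v => ⟨fun b => by
          have k1 := (hn₁ v).1 b
          have k2 := hx₁P v b
          have k3 := norm_sub_le_norm_sub_add_norm_sub (s v (z₁ b)) (x₁ v b) (x₀ v b)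
          change ‖s v (z₁ b) - x₁ v b‖ < η₁ at k1
          linarith, by
          have k1 := (hn₁ v).2
          have k2 := (hY1 v).trans_le (min_le_right _ _)
          have k3 := norm_sub_le_norm_sub_add_norm_sub (s v w₁) (Y v) (y₀ v)
          linarith⟩) x' y' hy2 (fun v => ⟨fun b => by
          have k1 := (hT v).1 b
          have k2 := hx'x v b
          have k3 := norm_sub_le_norm_sub_add_norm_sub (x' v b) (x v b) (x₀ v b)
          linarith, by
          have k1 := (hT v).2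
          have k2 := (hy1 v).trans_le (min_le_right _ _)
          have k3 := norm_sub_le_norm_sub_add_norm_sub (y' v) (y v) (y₀ v)
          linarith⟩) (fun v b hb => by simp only [hx', if_neg hb]) (η / 2) (half_pos hη)
      refine ⟨z', w', h1, fun v => ⟨fun b => ?_, ?_⟩⟩
      · have k1 := (h2 v).1 b
        have k2 := hx'x v b
        have k3 := norm_sub_le_norm_sub_add_norm_sub (s v (z' b)) (x' v b) (x v b)
        linarith
      · have k1 := (h2 v).2
        have k2 := (hy1 v).trans_le (min_le_left _ _)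
        have k3 := norm_sub_le_norm_sub_add_norm_sub (s v w') (y' v) (y v)
        linarith
  -- the coordinates of the target may be taken rational one after another
  obtain ⟨ε, hε, h⟩ := claim Finset.univ
  exact ⟨ε, hε, fun F _ _ s f hd hf z w hzw hn x y hxy hT η hη => h F s f hd hf z w hzw hn x y hxy hT
    (fun v a ha => absurd (Finset.mem_univ a) ha) η hη⟩

end

section all

variable {ι : Type} [Finite ι] {p : ι → ℕ} [hp : ∀ i, Fact (p i).Prime] {m : ℕ}

instance instLvZ : ∀ v, CharZero (Lv p v)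
  | none => inferInstanceAs (CharZero ℝ)
  | some i => inferInstanceAs (CharZero ℚ_[p i])

/-- the real place and p-adic places -/
theorem hw_allU [Nonempty ι] (hinj : Function.Injective p) {θ : ∀ v, Lv p v × (Fin 4 → Lv p v)}
    (hw : ∀ v, (θ v).1 ≠ 0) (hS : ∀ v, IOt (θ v)) : WAqU θ := by
  have : Fintype ι := Fintype.ofFinite ι
  obtain ⟨δ, hδ, h⟩ := lemU (θ₀ := fun i => θ (some i)) (θ' := θ none) hinj
    (fun i => hw (some i)) (hw none) (fun i => hS (some i)) (hS none)
  refine ⟨δ, hδ, fun F _ _ s θ h1 h2 t Y ht hY he η hη => ?_⟩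
  obtain ⟨u, Z, g1, g2, g3, g4⟩ := h F (fun i => s (some i)) (s none) θ (fun i => h1 (some i))
    (fun i j => h2 (some i) j) (h1 none)
    (fun j => h2 none j) (fun i => t (some i)) (fun i => Y (some i)) (t none) (Y none)
    (fun i => ht (some i)) (fun i => hY (some i)) (ht none) (hY none) (fun i => he (some i))
    (he none) η hη
  refine ⟨u, Z, g1, ?_⟩
  rintro (_ | i)
  · exact ⟨g3, g4⟩
  · exact g2 i

end all

end Pool.Agent.L5helper15.KU
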